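import Pool.Agent.H88.CAP.Space

set_option autoImplicit false
set_option linter.unusedSectionVars false

/-! # The compact approximation property of the space -/

open Filter Topology Finset
open scoped BoundedContinuousFunction unitInterval

noncomputable section

namespace Pool.Agent.H88.CAP

open Pool.Agent.H812R2.AP Pool.Agent.BAPp

/-- the metric compact approximation property: on every compact set the identity is approximated
by a compact operator of norm at most one -/
def HasMetricCAP (E : Type*) [NormedAddCommGroup E] [NormedSpace ℝ E] : Prop :=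
  ∀ K : Set E, IsCompact K → ∀ ε : ℝ, 0 < ε → ∃ T : E →L[ℝ] E, IsCompactOperator T ∧
    ‖T‖ ≤ 1 ∧ ∀ x ∈ K, ‖T x - x‖ < ε

variable (s : Sys)

lemma interp_close (h : C(I, ℝ)) (h0 : h 0 = 0) {ε : ℝ} (hε : 0 < ε) :
    ∃ N : ℕ, ∀ n ≥ N, ‖interp n h - h‖ ≤ ε := by
  have huc : UniformContinuous h := CompactSpace.uniformContinuous_of_continuous h.continuous
  obtain ⟨δ, hδ, hδ'⟩ := Metric.uniformContinuous_iff.1 huc (ε / 2) (by positivity)
  obtain ⟨N, hN⟩ := exists_nat_gt (3 / δ)
  refine ⟨N, fun n hn => ?_⟩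
  have hN0 : (0 : ℝ) < N := lt_trans (by positivity) hN
  have hn0 : (0 : ℝ) < n := lt_of_lt_of_le hN0 (by exact_mod_cast hn)
  have h3n : 3 / (n : ℝ) < δ := by
    rw [div_lt_iff₀ hn0]
    rw [div_lt_iff₀ hδ] at hN
    have : (N : ℝ) ≤ n := by exact_mod_cast hn
    nlinarith
  refine (ContinuousMap.norm_le _ hε.le).2 fun t => ?_
  rw [ContinuousMap.sub_apply, interp_apply]
  have hS0 : 0 ≤ ∑ j ∈ range n, hat (n * (t : ℝ) - (j + 2)) :=
    Finset.sum_nonneg fun j _ => hat_nonneg _
  have htn : (n : ℝ) * t ≤ n + 1 := by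
    have := t.2.2
    nlinarith
  have hS1 := sum_hat_le (n * (t : ℝ)) n htn
  have e1 : ∑ j ∈ range n, hat (n * (t : ℝ) - (j + 2)) * h (node n j) - h t =
      ∑ j ∈ range n, hat (n * (t : ℝ) - (j + 2)) * (h (node n j) - h t) +
        (∑ j ∈ range n, hat (n * (t : ℝ) - (j + 2)) - 1) * h t := by
    simp only [mul_sub, Finset.sum_sub_distrib, ← Finset.sum_mul]
    ring
  rw [e1]
  have h1 : ‖∑ j ∈ range n, hat (n * (t : ℝ) - (j + 2)) * (h (node n j) - h t)‖ ≤ ε / 2 := by
    refine (norm_sum_le _ _).trans ?_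
    have h2 : ∀ j ∈ range n, ‖hat (n * (t : ℝ) - (j + 2)) * (h (node n j) - h t)‖ ≤
        hat (n * (t : ℝ) - (j + 2)) * (ε / 2) := by
      intro j hj
      rw [norm_mul, Real.norm_of_nonneg (hat_nonneg _)]
      by_cases h2 : 1 ≤ |n * (t : ℝ) - (j + 2)|
      · rw [hat_eq_zero h2, zero_mul, zero_mul]
      · rw [not_le, abs_lt] at h2
        refine mul_le_mul_of_nonneg_left ?_ (hat_nonneg _)
        rw [← dist_eq_norm]
        refine (hδ' ?_).le
        rw [Subtype.dist_eq, Real.dist_eq, node_val (mem_range.1 hj)]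
        have h5 : |(j : ℝ) / n - t| ≤ 3 / n := by
          have e : (j : ℝ) / n - t = (j - n * t) / n := by field_simp
          rw [e, abs_div, abs_of_pos hn0]
          refine div_le_div_of_nonneg_right ?_ hn0.le
          rw [abs_le]
          constructor <;> linarith [h2.1, h2.2]
        linarith
    refine (Finset.sum_le_sum h2).trans ?_
    rw [← Finset.sum_mul]
    nlinarith
  have h2 : ‖(∑ j ∈ range n, hat (n * (t : ℝ) - (j + 2)) - 1) * h t‖ ≤ ε / 2 := by
    rcases le_total 2 ((n : ℝ) * t) with h3 | h3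
    · rw [sum_hat_eq _ _ h3 htn, sub_self, zero_mul, norm_zero]
      positivity
    · rw [norm_mul]
      have h4 : ‖∑ j ∈ range n, hat (n * (t : ℝ) - (j + 2)) - 1‖ ≤ 1 := by
        rw [Real.norm_eq_abs, abs_le]
        constructor <;> linarith
      have h5 : ‖h t‖ ≤ ε / 2 := by
        have h6 : dist t 0 < δ := by
          rw [Subtype.dist_eq, Real.dist_eq]
          have : ((0 : I) : ℝ) = 0 := rfl
          rw [this, sub_zero, abs_of_nonneg t.2.1]
          have : (t : ℝ) ≤ 3 / n := by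
            rw [le_div_iff₀ hn0]
            linarith [mul_comm (t : ℝ) n]
          linarith
        have h7 := (hδ' h6).le
        rw [h0, dist_zero_right] at h7
        exact h7
      calc _ ≤ 1 * (ε / 2) := mul_le_mul h4 h5 (norm_nonneg _) zero_le_one
        _ = ε / 2 := one_mul _
  refine (norm_add_le _ _).trans ?_
  linarith

lemma Q_close {x : A} (hx : x ∈ EE s) : ∀ ε > 0, ∃ N : ℕ, ∀ n ≥ N, ‖Q n x - x‖ ≤ ε := by
  refine EE_induction s (p := fun x => ∀ ε > 0, ∃ N : ℕ, ∀ n ≥ N, ‖Q n x - x‖ ≤ ε)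
    ?_ ?_ ?_ ?_ ?_ hx
  · intro l i h hi h0 ε hε
    obtain ⟨N, hN⟩ := interp_close h h0 hε
    refine ⟨N, fun n hn => ?_⟩
    rw [Q_Tz]
    have e : Tz (interp n h) (s.E ℝ l i) - Tz h (s.E ℝ l i) = Tz (interp n h - h) (s.E ℝ l i) := by
      ext d
      rw [A.sub_apply, Tz_apply, Tz_apply, Tz_apply,
        ContinuousMap.sub_apply]
      ring
    rw [e]
    refine (norm_TzFun_le _ _).trans ?_
    have h1 := s.norm_E_le ℝ l i
    calc ‖interp n h - h‖ * ‖s.E ℝ l i‖ ≤ ε * 1 :=
          mul_le_mul (hN n hn) h1 (norm_nonneg _) hε.le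
      _ = ε := mul_one _
  · intro ε hε
    exact ⟨0, fun n _ => by simpa using hε.le⟩
  · intro x y hx hy ε hε
    obtain ⟨N, hN⟩ := hx (ε / 2) (by positivity)
    obtain ⟨N', hN'⟩ := hy (ε / 2) (by positivity)
    refine ⟨max N N', fun n hn => ?_⟩
    have e : Q n (x + y) - (x + y) = (Q n x - x) + (Q n y - y) := by rw [map_add]; abel
    rw [e]
    refine (norm_add_le _ _).trans ?_
    linarith [hN n (le_trans (le_max_left _ _) hn), hN' n (le_trans (le_max_right _ _) hn)]
  · intro c x hx ε hε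
    obtain ⟨N, hN⟩ := hx (ε / (‖c‖ + 1)) (by positivity)
    refine ⟨N, fun n hn => ?_⟩
    have e : Q n (c • x) - c • x = c • (Q n x - x) := by rw [map_smul, smul_sub]
    rw [e, norm_smul]
    have h2 : ‖c‖ * ‖Q n x - x‖ ≤ (‖c‖ + 1) * (ε / (‖c‖ + 1)) := by
      have := hN n hn
      gcongr
      linarith
    refine h2.trans ?_
    rw [mul_div_cancel₀]
    positivity
  · rw [← closure_eq_iff_isClosed]
    refine Set.Subset.antisymm (fun x hx => ?_) subset_closure
    intro ε hε
    rw [Metric.mem_closure_iff] at hx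
    obtain ⟨y, hy, hxy⟩ := hx (ε / 3) (by positivity)
    obtain ⟨N, hN⟩ := hy (ε / 3) (by positivity)
    refine ⟨N, fun n hn => ?_⟩
    have e : Q n x - x = Q n (x - y) + (Q n y - y) + (y - x) := by rw [map_sub]; abel
    rw [e]
    refine (norm_add_le _ _).trans ?_
    have h1 := norm_add_le (Q n (x - y)) (Q n y - y)
    have h2 : ‖Q n (x - y)‖ ≤ 1 * ‖x - y‖ :=
      ((Q n).le_opNorm _).trans (mul_le_mul_of_nonneg_right (norm_Q_le n) (norm_nonneg _))
    rw [dist_eq_norm] at hxy
    rw [← norm_neg (y - x), neg_sub]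
    linarith [hN n hn]

/-- the operators on the space -/
def QE (n : ℕ) : W s →L[ℝ] W s :=
  lift s ((Q n).comp (inc s)) fun x => Q_mem s n (inc_mem s x)

lemma QE_apply (n : ℕ) (x : W s) : inc s (QE s n x) = Q n (inc s x) := rfl

lemma norm_QE_le (n : ℕ) (x : W s) : ‖QE s n x‖ ≤ ‖x‖ := by
  have h : ‖Q n (inc s x)‖ ≤ 1 * ‖inc s x‖ :=
    ((Q n).le_opNorm _).trans (mul_le_mul_of_nonneg_right (norm_Q_le n) (norm_nonneg _))
  rw [one_mul] at h
  exact h

/-- the finite sets of indices -/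
def PK (K : ℕ) : Finset (ℕ × ℕ) := (Finset.range K) ×ˢ (Finset.range (2 ^ (K + 2)))

lemma hat_wt_le (n j k : ℕ) (t : I) {a : ℝ}
    (hle : 0 ≤ (t : ℝ) - (j : ℝ) / n → hat (n * (t : ℝ) - (j + 2)) ≠ 0 → 0 < (n : ℝ) →
      1 / (n : ℝ) ≤ (t : ℝ) - (j : ℝ) / n → wt k ((t : ℝ) - (j : ℝ) / n) ≤ a) :
    hat (n * (t : ℝ) - (j + 2)) * wt k ((t : ℝ) - (j : ℝ) / n) ≤
      hat (n * (t : ℝ) - (j + 2)) * a := by
  by_cases h2 : 1 ≤ |n * (t : ℝ) - (j + 2)|
  · rw [hat_eq_zero h2, zero_mul, zero_mul]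
  · have h0 : hat (n * (t : ℝ) - (j + 2)) ≠ 0 ∨ hat (n * (t : ℝ) - (j + 2)) = 0 := ne_or_eq _ _
    rcases h0 with h0 | h0
    swap
    · rw [h0, zero_mul, zero_mul]
    rw [not_le, abs_lt] at h2
    have hn : (0 : ℝ) < n := by
      rcases Nat.eq_zero_or_pos n with h | h
      · subst h
        have h3 := h2.1
        push_cast at h3
        have h4 : (0 : ℝ) ≤ j := Nat.cast_nonneg _
        linarith
      · exact_mod_cast h
    have h3 : 1 / (n : ℝ) ≤ (t : ℝ) - (j : ℝ) / n := by
      rw [le_sub_iff_add_le, ← add_div, div_le_iff₀ hn]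
      linarith [h2.1, mul_comm (t : ℝ) n]
    have h4 : 0 ≤ (t : ℝ) - (j : ℝ) / n := le_trans (by positivity) h3
    exact mul_le_mul_of_nonneg_left (hle h4 h0 hn h3) (hat_nonneg _)

lemma hat_le_one (y : ℝ) : hat y ≤ 1 := by
  unfold hat
  exact max_le zero_le_one (by linarith [abs_nonneg y])

/-- the functions appearing in the finite rank approximations -/
def bump (n j : ℕ) (p : ℕ × ℕ) : A :=
  A.mk (fun x : D => if x.2 = p then hat (n * x.1 - (j + 2)) * wt p.1 (x.1 - (j : ℝ) / n) else 0) (by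
      rw [continuous_prod_of_discrete_right]
      intro q
      by_cases h : q = p
      · have h1 : Continuous fun t : I => hat (n * (t : ℝ) - (j + 2)) :=
          continuous_hat.comp (by fun_prop)
        have h2 : Continuous fun t : I => wt p.1 ((t : ℝ) - (j : ℝ) / n) :=
          (continuous_wt p.1).comp (by fun_prop)
        have h3 : Continuous fun t : I => hat (n * (t : ℝ) - (j + 2)) *
          wt p.1 ((t : ℝ) - (j : ℝ) / n) := h1.mul h2
        simpa [h] using h3
      · simpa [h] using continuous_const) 1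
    (by
      rintro ⟨t, q⟩
      dsimp only
      split_ifs with h
      · rw [Real.norm_of_nonneg (mul_nonneg (hat_nonneg _) (wt_pos _ _).le)]
        refine (hat_wt_le n j p.1 t fun h1 _ _ _ => wt_le_one _ h1).trans ?_
        rw [mul_one]
        exact hat_le_one _
      · simp)

lemma bump_apply (n j : ℕ) (p : ℕ × ℕ) (t : I) (q : ℕ × ℕ) : bump n j p (t, q) =
    if q = p then hat (n * t - (j + 2)) * wt p.1 (t - (j : ℝ) / n) else 0 := rfl

/-- evaluation functional -/
def ev (x : D) : W s →L[ℝ] ℝ :=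
  (A.evalL x).comp (inc s)

lemma ev_apply (x : D) (F : W s) : ev s x F = inc s F x := rfl

/-- finite rank approximations -/
def QK (n K : ℕ) : W s →L[ℝ] A :=
  ∑ j ∈ range n, ∑ p ∈ PK K, (ev s (node n j, p)).smulRight (bump n j p)

lemma compact_rankOne {M N : Type*} [NormedAddCommGroup M] [NormedSpace ℝ M]
    [NormedAddCommGroup N] [NormedSpace ℝ N] (φ : M →L[ℝ] ℝ) (b : N) :
    IsCompactOperator (φ.smulRight b) := by
  have h1 : IsCompactOperator φ := isCompactOperator_of_locallyCompactSpace_dom φ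
  have h2 := h1.clm_comp (((1 : ℝ →L[ℝ] ℝ).smulRight b : ℝ →L[ℝ] N))
  have e : (⇑(((1 : ℝ →L[ℝ] ℝ).smulRight b : ℝ →L[ℝ] N)) ∘ ⇑φ) = ⇑(φ.smulRight b) := by
    funext x
    simp
  rw [← e]
  exact h2

lemma compact_QK (n K : ℕ) : IsCompactOperator (QK s n K) := by
  have h : QK s n K ∈ compactOperator (RingHom.id ℝ) (W s) A := by
    unfold QK
    refine Submodule.sum_mem _ fun j _ => Submodule.sum_mem _ fun p _ => ?_
    exact compact_rankOne (ev s (node n j, p)) (bump n j p)
  exact h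

lemma QK_apply (n K : ℕ) (F : W s) (t : I) (q : ℕ × ℕ) :
    QK s n K F (t, q) = if q ∈ PK K then Q n (inc s F) (t, q) else 0 := by
  unfold QK
  have h1 : ((∑ j ∈ range n, ∑ p ∈ PK K, (ev s (node n j, p)).smulRight (bump n j p)) F) (t, q) =
      ∑ j ∈ range n, ∑ p ∈ PK K, inc s F (node n j, p) * bump n j p (t, q) := by
    rw [_root_.sum_apply, A.sum_apply]
    refine Finset.sum_congr rfl fun j _ => ?_
    rw [_root_.sum_apply, A.sum_apply]
    refine Finset.sum_congr rfl fun p _ => ?_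
    rw [ContinuousLinearMap.smulRight_apply, A.smul_apply, ev_apply]
  rw [h1]
  split_ifs with h
  · rw [Q_apply]
    refine Finset.sum_congr rfl fun j _ => ?_
    rw [Finset.sum_eq_single q]
    · rw [bump_apply, if_pos rfl]
      ring
    · intro p _ hp
      rw [bump_apply, if_neg (Ne.symm hp), mul_zero]
    · intro h'
      exact absurd h h'
  · refine Finset.sum_eq_zero fun j _ => Finset.sum_eq_zero fun p hp => ?_
    have hne : ¬ q = p := fun h' => h (by rw [h']; exact hp)
    rw [bump_apply, if_neg hne, mul_zero]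

lemma QK_close (n K : ℕ) : ‖(Q n).comp (inc s) - QK s n K‖ ≤ wt K (1 / n) := by
  refine ContinuousLinearMap.opNorm_le_bound _ (wt_pos _ _).le fun F => ?_
  refine (A.norm_le (mul_nonneg (wt_pos _ _).le (norm_nonneg _))).2 ?_
  rintro ⟨t, q⟩
  rw [_root_.sub_apply, A.sub_apply, QK_apply]
  have e : ((Q n).comp (inc s)) F = Q n (inc s F) := rfl
  rw [e]
  have hnn : 0 ≤ wt K (1 / n) * ‖F‖ := mul_nonneg (wt_pos _ _).le (norm_nonneg _)
  split_ifs with h
  · rw [sub_self, norm_zero]
    exact hnn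
  · rw [sub_zero, Q_apply]
    dsimp only
    by_cases hq : q.2 < 2 ^ (q.1 + 2)
    · have hK : K ≤ q.1 := by
        by_contra hcon
        rw [not_le] at hcon
        apply h
        rw [PK, Finset.mem_product, Finset.mem_range, Finset.mem_range]
        exact ⟨hcon, hq.trans_le (Nat.pow_le_pow_right (by norm_num) (by omega))⟩
      refine (norm_sum_le _ _).trans ?_
      have h1 : ∀ j ∈ range n, ‖hat (n * (t : ℝ) - (j + 2)) *
          (wt q.1 (t - (j : ℝ) / n) * inc s F (node n j, q))‖ ≤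
            hat (n * (t : ℝ) - (j + 2)) * (wt K (1 / n) * ‖F‖) := by
        intro j hj
        rw [← mul_assoc, ← mul_assoc, norm_mul,
          Real.norm_of_nonneg (mul_nonneg (hat_nonneg _) (wt_pos _ _).le)]
        refine mul_le_mul ?_ ((inc s F).norm_coe_le _) (norm_nonneg _)
          (mul_nonneg (hat_nonneg _) (wt_pos _ _).le)
        refine hat_wt_le n j q.1 t fun h1 _ _ h2 => ?_
        exact (wt_anti' hK h1).trans (wt_anti K h2)
      refine (Finset.sum_le_sum h1).trans ?_
      rw [← Finset.sum_mul]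
      have h2 := sum_hat_le (n * (t : ℝ)) n (by
        have := t.2.2
        have hn : (0 : ℝ) ≤ n := Nat.cast_nonneg _
        nlinarith)
      calc _ ≤ 1 * (wt K (1 / n) * ‖F‖) := mul_le_mul_of_nonneg_right h2 hnn
        _ = _ := one_mul _
    · have h1 : ∀ j ∈ range n, hat (n * (t : ℝ) - (j + 2)) *
          (wt q.1 (t - (j : ℝ) / n) * inc s F (node n j, q)) = 0 := by
        intro j _
        have := EE_off s (inc_mem s F) (node n j) q.1 q.2 hq
        rw [this, mul_zero, mul_zero]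
      rw [Finset.sum_eq_zero h1, norm_zero]
      exact hnn

lemma tendsto_wt (n : ℕ) (hn : 0 < n) : Tendsto (fun K : ℕ => wt K (1 / n)) atTop (𝓝 0) := by
  have hn' : (0 : ℝ) < n := by exact_mod_cast hn
  have h1 : ∀ K : ℕ, wt K (1 / n) = (Real.exp (-(1 / (4 * n)))) ^ K := by
    intro K
    unfold wt
    rw [← Real.exp_nat_mul]
    congr 1
    field_simp
  simp_rw [h1]
  refine tendsto_pow_atTop_nhds_zero_of_lt_one (Real.exp_pos _).le ?_
  rw [Real.exp_lt_one_iff]
  have : 0 < 1 / (4 * (n : ℝ)) := by positivity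
  linarith

lemma compact_QE (n : ℕ) (hn : 0 < n) : IsCompactOperator (QE s n) := by
  have h1 : IsCompactOperator ((Q n).comp (inc s)) := by
    refine isCompactOperator_of_tendsto (l := atTop) (F := fun K : ℕ => QK s n K) ?_
      (Eventually.of_forall fun K => compact_QK s n K)
    have h2 : Tendsto (fun K => ‖QK s n K - (Q n).comp (inc s)‖) atTop (𝓝 0) := by
      refine squeeze_zero (fun _ => norm_nonneg _) (fun K => ?_) (tendsto_wt n hn)
      rw [← norm_neg, neg_sub]
      exact QK_close s n K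
    exact tendsto_iff_norm_sub_tendsto_zero.2 h2
  exact lift_compact s _ _ h1

theorem hasCAP : HasMetricCAP (W s) := by
  intro K hK ε hε
  obtain ⟨t, htK, hcov⟩ := Metric.totallyBounded_iff.1 hK.totallyBounded (ε / 4) (by positivity)
  have h1 : ∀ x : W s, ∃ N : ℕ, ∀ n ≥ N, ‖QE s n x - x‖ ≤ ε / 4 := fun x =>
    Q_close s (inc_mem s x) (ε / 4) (by positivity)
  choose N hN using h1
  set M := (∑ x ∈ htK.toFinset, N x) + 1 with hM
  refine ⟨QE s M, compact_QE s M (by omega),
    ContinuousLinearMap.opNorm_le_bound _ zero_le_one fun x => by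
      rw [one_mul]; exact norm_QE_le s M x, fun x hx => ?_⟩
  have hx2 := hcov hx
  rw [Set.mem_iUnion₂] at hx2
  obtain ⟨y, hy, hxy⟩ := hx2
  have hxy' : ‖x - y‖ < ε / 4 := mem_ball_iff_norm.1 hxy
  have h2 : ‖QE s M y - y‖ ≤ ε / 4 := by
    refine hN y M ?_
    have : N y ≤ ∑ x ∈ htK.toFinset, N x :=
      Finset.single_le_sum (f := N) (fun _ _ => Nat.zero_le _) (htK.mem_toFinset.2 hy)
    omega
  have e : QE s M x - x = QE s M (x - y) + (QE s M y - y) + (y - x) := by rw [map_sub]; abel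
  rw [e]
  have h3 := norm_add_le (QE s M (x - y) + (QE s M y - y)) (y - x)
  have h4 := norm_add_le (QE s M (x - y)) (QE s M y - y)
  have h5 := norm_QE_le s M (x - y)
  rw [← norm_neg (y - x), neg_sub] at h3
  linarith

end Pool.Agent.H88.CAP
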