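import Mathlib

set_option autoImplicit false
set_option linter.unusedSectionVars false

/-! # Real spaces made into spaces over the scalar field -/

open Filter Topology

noncomputable section

namespace Pool.Agent.H88.CAP

variable (𝕜 : Type) [RCLike 𝕜] (E : Type) [NormedAddCommGroup E] [NormedSpace ℝ E]

/-- the bounded real-linear maps from the scalar field to a real space, to be seen as a space over
the scalar field -/
def Cx : Type := 𝕜 →L[ℝ] E

namespace Cx

instance : NormedAddCommGroup (Cx 𝕜 E) := inferInstanceAs (NormedAddCommGroup (𝕜 →L[ℝ] E))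

instance [CompleteSpace E] : CompleteSpace (Cx 𝕜 E) := inferInstanceAs (CompleteSpace (𝕜 →L[ℝ] E))

variable {𝕜 E}

/-- the underlying map -/
def map (T : Cx 𝕜 E) : 𝕜 →L[ℝ] E := T

/-- maps as elements of the space -/
def mk (T : 𝕜 →L[ℝ] E) : Cx 𝕜 E := T

lemma map_mk (T : 𝕜 →L[ℝ] E) : map (mk T) = T := rfl

lemma norm_eq (T : Cx 𝕜 E) : ‖T‖ = ‖T.map‖ := rfl

lemma map_add (S T : Cx 𝕜 E) : map (S + T) = map S + map T := rfl

lemma map_sub (S T : Cx 𝕜 E) : map (S - T) = map S - map T := rfl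

lemma ext {S T : Cx 𝕜 E} (h : ∀ z, map S z = map T z) : S = T :=
  ContinuousLinearMap.ext h

lemma continuous_map : Continuous (map : Cx 𝕜 E → 𝕜 →L[ℝ] E) := continuous_id

lemma continuous_mk : Continuous (mk : (𝕜 →L[ℝ] E) → Cx 𝕜 E) := continuous_id

instance : Module 𝕜 (Cx 𝕜 E) where
  smul c T := mk (T.map.comp (ContinuousLinearMap.mul ℝ 𝕜 c))
  one_smul T := ext fun z => by
    change T.map (1 * z) = T.map z
    rw [one_mul]
  mul_smul c d T := ext fun z => by
    change T.map (c * d * z) = T.map (d * (c * z))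
    congr 1
    ring
  smul_zero c := ext fun z => rfl
  smul_add c S T := ext fun z => rfl
  add_smul c d T := ext fun z => by
    change T.map ((c + d) * z) = T.map (c * z) + T.map (d * z)
    rw [add_mul, _root_.map_add]
  zero_smul T := ext fun z => by
    change T.map (0 * z) = 0
    rw [zero_mul, _root_.map_zero]

lemma map_smul_apply (c : 𝕜) (T : Cx 𝕜 E) (z : 𝕜) : map (c • T) z = map T (c * z) := rfl

lemma map_real_smul (t : ℝ) (T : Cx 𝕜 E) (z : 𝕜) : map ((t : 𝕜) • T) z = t • map T z := by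
  rw [map_smul_apply, ← RCLike.real_smul_eq_coe_mul, _root_.map_smul]

instance : NormedSpace 𝕜 (Cx 𝕜 E) where
  norm_smul_le c T := by
    rw [norm_eq, norm_eq, mul_comm]
    refine ContinuousLinearMap.opNorm_le_bound _ (by positivity) fun z => ?_
    rw [map_smul_apply]
    refine (T.map.le_opNorm _).trans ?_
    rw [norm_mul, mul_assoc]

/-- postcomposition with an operator -/
def post (S : E →L[ℝ] E) : Cx 𝕜 E →L[𝕜] Cx 𝕜 E :=
  LinearMap.mkContinuous
    { toFun := fun T => mk (S.comp T.map)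
      map_add' := fun _ _ => ext fun _ => S.map_add _ _
      map_smul' := fun _ _ => ext fun _ => rfl } ‖S‖
    fun T => ContinuousLinearMap.opNorm_comp_le S T.map

lemma post_apply (S : E →L[ℝ] E) (T : Cx 𝕜 E) (z : 𝕜) : map (post S T) z = S (map T z) := rfl

lemma norm_post_le (S : E →L[ℝ] E) : ‖(post S : Cx 𝕜 E →L[𝕜] Cx 𝕜 E)‖ ≤ ‖S‖ :=
  LinearMap.mkContinuous_norm_le _ (norm_nonneg _) _

lemma post_compact (S : E →L[ℝ] E) (hS : IsCompactOperator S) :
    IsCompactOperator (post S : Cx 𝕜 E →L[𝕜] Cx 𝕜 E) := by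
  have h1 := (hS.comp_clm (ContinuousLinearMap.apply ℝ E (1 : 𝕜))).clm_comp
    (ContinuousLinearMap.smulRightL ℝ 𝕜 E (RCLike.reCLM : 𝕜 →L[ℝ] ℝ))
  have h2 := (hS.comp_clm (ContinuousLinearMap.apply ℝ E (RCLike.I : 𝕜))).clm_comp
    (ContinuousLinearMap.smulRightL ℝ 𝕜 E (RCLike.imCLM : 𝕜 →L[ℝ] ℝ))
  have h3 := h1.add h2
  have e : ((ContinuousLinearMap.smulRightL ℝ 𝕜 E (RCLike.reCLM : 𝕜 →L[ℝ] ℝ)) ∘
      (⇑S ∘ ⇑(ContinuousLinearMap.apply ℝ E (1 : 𝕜))) +
      (ContinuousLinearMap.smulRightL ℝ 𝕜 E (RCLike.imCLM : 𝕜 →L[ℝ] ℝ)) ∘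
      (⇑S ∘ ⇑(ContinuousLinearMap.apply ℝ E (RCLike.I : 𝕜)))) =
      (fun T : 𝕜 →L[ℝ] E => S.comp T) := by
    funext T
    refine ContinuousLinearMap.ext fun z => ?_
    have hz : T z = RCLike.re z • T 1 + RCLike.im z • T RCLike.I := by
      conv_lhs => rw [← RCLike.re_add_im z]
      rw [_root_.map_add, ← _root_.map_smul, ← _root_.map_smul]
      congr 2
      · rw [RCLike.real_smul_eq_coe_mul, mul_one]
      · rw [RCLike.real_smul_eq_coe_mul]
    rw [ContinuousLinearMap.comp_apply, hz, _root_.map_add, _root_.map_smul, _root_.map_smul]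
    rfl
  rw [e] at h3
  exact h3

/-- the metric compact approximation property passes to the new space -/
theorem metricCAP (h : ∀ K : Set E, IsCompact K → ∀ ε : ℝ, 0 < ε → ∃ T : E →L[ℝ] E,
      IsCompactOperator T ∧ ‖T‖ ≤ 1 ∧ ∀ x ∈ K, ‖T x - x‖ < ε) :
    ∀ K : Set (Cx 𝕜 E), IsCompact K → ∀ ε : ℝ, 0 < ε → ∃ T : Cx 𝕜 E →L[𝕜] Cx 𝕜 E,
      IsCompactOperator T ∧ ‖T‖ ≤ 1 ∧ ∀ x ∈ K, ‖T x - x‖ < ε := by
  intro K hK ε hε
  have hK' : IsCompact ((fun q : Cx 𝕜 E × 𝕜 => map q.1 q.2) '' (K ×ˢ Metric.closedBall 0 1)) := by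
    refine (hK.prod (isCompact_closedBall _ _)).image ?_
    exact (isBoundedBilinearMap_apply (𝕜 := ℝ) (E := 𝕜) (F := E)).continuous
  obtain ⟨S, hS, hS1, hS2⟩ := h _ hK' (ε / 2) (by positivity)
  refine ⟨post S, post_compact S hS, (norm_post_le S).trans hS1, fun T hT => ?_⟩
  have h1 : ‖post S T - T‖ ≤ ε / 2 := by
    rw [norm_eq]
    refine ContinuousLinearMap.opNorm_le_of_unit_norm (by positivity) fun z hz => ?_
    refine (hS2 _ ⟨(T, z), ⟨hT, ?_⟩, rfl⟩).le
    rw [Metric.mem_closedBall, dist_zero_right, hz]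
  linarith

/-- the embedding of the real space -/
def emb (x : E) : Cx 𝕜 E := mk ((RCLike.reCLM : 𝕜 →L[ℝ] ℝ).smulRight x)

lemma emb_one (x : E) : map (emb x : Cx 𝕜 E) 1 = x := by
  change RCLike.re (1 : 𝕜) • x = x
  rw [RCLike.one_re, one_smul]

lemma continuous_emb : Continuous (emb : E → Cx 𝕜 E) :=
  (ContinuousLinearMap.smulRightL ℝ 𝕜 E (RCLike.reCLM : 𝕜 →L[ℝ] ℝ)).continuous

lemma emb_comb (t r : ℝ) (x y : E) :
    (emb (t • x + r • y) : Cx 𝕜 E) = (t : 𝕜) • emb x + (r : 𝕜) • emb y := by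
  refine ext fun z => ?_
  rw [map_add, _root_.add_apply, map_real_smul, map_real_smul]
  change RCLike.re z • (t • x + r • y) = t • RCLike.re z • x + r • RCLike.re z • y
  rw [smul_add, smul_comm t, smul_comm r]

lemma continuous_one : Continuous fun T : Cx 𝕜 E => map T 1 :=
  (ContinuousLinearMap.apply ℝ E (1 : 𝕜)).continuous

end Cx

end Pool.Agent.H88.CAP
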