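import Pool.Agent.H88.CAP.SetX
import Pool.Agent.H88.CAP.CAP

set_option autoImplicit false
set_option linter.unusedSectionVars false

/-! # The map is not a limit of continuous affine maps -/

open Filter Topology Finset
open scoped BoundedContinuousFunction unitInterval

noncomputable section

namespace Pool.Agent.H88.CAP

open Pool.Agent.H812R2.AP Pool.Agent.BAPp

variable (s : Sys)

/-! ### linear extension of affine maps on the unit ball -/

section ext

variable {M N : Type*} [NormedAddCommGroup M] [NormedSpace ℝ M] [NormedAddCommGroup N]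
  [NormedSpace ℝ N]

/-- an affine bounded map on the unit ball vanishing at zero extends to a bounded operator -/
lemma exists_extension (G : M → N) (C : ℝ)
    (haff : ∀ x y : M, ‖x‖ ≤ 1 → ‖y‖ ≤ 1 → ∀ t : ℝ, 0 ≤ t → t ≤ 1 →
      G (t • x + (1 - t) • y) = t • G x + (1 - t) • G y)
    (h0 : G 0 = 0) (hC : ∀ x, ‖x‖ ≤ 1 → ‖G x‖ ≤ C) :
    ∃ S : M →L[ℝ] N, ∀ x, ‖x‖ ≤ 1 → S x = G x := by
  have hscale : ∀ x : M, ‖x‖ ≤ 1 → ∀ t : ℝ, 0 ≤ t → t ≤ 1 → G (t • x) = t • G x := by
    intro x hx t ht ht1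
    have := haff x 0 hx (by rw [norm_zero]; exact zero_le_one) t ht ht1
    rwa [smul_zero, add_zero, h0, smul_zero, add_zero] at this
  have hsmall : ∀ (x : M) (r : ℝ), 0 < r → ‖x‖ ≤ r → ‖r⁻¹ • x‖ ≤ 1 := by
    intro x r hr hx
    rw [norm_smul, norm_inv, Real.norm_of_nonneg hr.le, inv_mul_le_iff₀ hr, mul_one]
    exact hx
  have hinv : ∀ (x : M) (r r' : ℝ), 0 < r → r ≤ r' → ‖x‖ ≤ r →
      r • G (r⁻¹ • x) = r' • G (r'⁻¹ • x) := by
    intro x r r' hr hrr hx
    have hr' : 0 < r' := hr.trans_le hrr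
    have h1 := hscale (r⁻¹ • x) (hsmall x r hr hx) (r / r') (by positivity)
      ((div_le_one hr').2 hrr)
    rw [smul_smul] at h1
    have e : r / r' * r⁻¹ = r'⁻¹ := by field_simp
    rw [e] at h1
    rw [h1, smul_smul]
    congr 1
    field_simp
  let F : M → N := fun x => (‖x‖ + 1) • G ((‖x‖ + 1)⁻¹ • x)
  have hF : ∀ (x : M) (r : ℝ), 0 < r → ‖x‖ ≤ r → F x = r • G (r⁻¹ • x) := by
    intro x r hr hx
    have h1 : (0 : ℝ) < ‖x‖ + 1 := by positivity
    rcases le_total (‖x‖ + 1) r with h | h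
    · exact hinv x _ _ h1 h (by linarith)
    · exact (hinv x _ _ hr h hx).symm
  have hadd : ∀ x y, F (x + y) = F x + F y := by
    intro x y
    set r := ‖x‖ + ‖y‖ + 1 with hr
    have hx0 := norm_nonneg x
    have hy0 := norm_nonneg y
    have hr0 : 0 < r := by positivity
    have hx := hF x r hr0 (by linarith)
    have hy := hF y r hr0 (by linarith)
    have hxy := hF (x + y) (2 * r) (by positivity) (by
      have := norm_add_le x y
      linarith)
    rw [hx, hy, hxy]
    have h1 := haff (r⁻¹ • x) (r⁻¹ • y) (hsmall x r hr0 (by linarith))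
      (hsmall y r hr0 (by linarith)) (1 / 2) (by norm_num) (by norm_num)
    have e : (2 * r)⁻¹ • (x + y) = (1 / 2 : ℝ) • r⁻¹ • x + (1 - 1 / 2 : ℝ) • r⁻¹ • y := by
      rw [smul_add, smul_smul, smul_smul]
      congr 2 <;> · field_simp; try norm_num
    rw [e, h1, smul_add, smul_smul, smul_smul]
    congr 2 <;> ring
  let f : M →+ N := AddMonoidHom.mk' F hadd
  have hCb : ∀ x, ‖f x‖ ≤ C * ‖x‖ := by
    intro x
    rcases (norm_nonneg x).eq_or_lt with h | h
    · have hx : x = 0 := norm_eq_zero.1 h.symm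
      rw [hx, map_zero, norm_zero, norm_zero, mul_zero]
    · have h1 : f x = ‖x‖ • G (‖x‖⁻¹ • x) := hF x ‖x‖ h le_rfl
      rw [h1, norm_smul, norm_norm, mul_comm]
      exact mul_le_mul_of_nonneg_right (hC _ (hsmall x _ h le_rfl)) h.le
  have hcont : Continuous f := AddMonoidHomClass.continuous_of_bound f C hCb
  refine ⟨f.toRealLinearMap hcont, fun x hx => ?_⟩
  have h1 : F x = (1 : ℝ) • G ((1 : ℝ)⁻¹ • x) := hF x 1 one_pos hx
  rw [inv_one, one_smul, one_smul] at h1
  exact h1

end ext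

/-! ### the truncated sequences -/

/-- the constant sequence with all cuts -/
def cst (x : s.XT ℝ) (n : ℕ) : ℕ × ℕ → ℝ := cut n fun p => s.val ℝ x p

/-- the truncated sequence -/
def trn (m : ℕ) (x : s.XT ℝ) (n : ℕ) : ℕ × ℕ → ℝ := if n ≤ m then cst s x n else 0

lemma cst_step (x : s.XT ℝ) (p : ℕ × ℕ) (n : ℕ) :
    cst s x (n + 1) p - cst s x n p = if n = p.1 then s.val ℝ x p else 0 := by
  unfold cst cut
  rcases lt_trichotomy p.1 n with h | h | h
  · rw [if_pos (by omega), if_pos h, if_neg (by omega), sub_self]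
  · rw [if_pos (by omega), if_neg (by omega), if_pos h.symm, sub_zero]
  · rw [if_neg (by omega), if_neg (by omega), if_neg (by omega), sub_self]

lemma cst_mem {x : s.XT ℝ} (hx : ‖x‖ ≤ 1) : cst s x ∈ XX s := by
  refine ⟨fun n => ⟨_, mem_K0 s hx, rfl⟩, fun p N => ?_⟩
  have h1 : ∀ n ∈ range N, |cst s x (n + 1) p - cst s x n p| = if n = p.1 then |s.val ℝ x p| else 0 := by
    intro n _
    rw [cst_step]
    split_ifs
    · rfl
    · exact abs_zero
  rw [Finset.sum_congr rfl h1, Finset.sum_ite_eq']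
  have := val_bound s x hx p
  split_ifs
  · linarith
  · norm_num

lemma abs_cst_le {x : s.XT ℝ} (hx : ‖x‖ ≤ 1) (n : ℕ) (p : ℕ × ℕ) : |cst s x n p| ≤ 1 := by
  unfold cst cut
  split_ifs
  · exact val_bound s x hx p
  · rw [abs_zero]; exact zero_le_one

lemma trn_mem (m : ℕ) {x : s.XT ℝ} (hx : ‖x‖ ≤ 1) : trn s m x ∈ XX s := by
  refine ⟨fun n => ?_, fun p N => ?_⟩
  · unfold trn
    split_ifs
    · exact ⟨_, mem_K0 s hx, rfl⟩
    · exact ⟨0, zero_mem_KK s, cut_zero n⟩
  · have h1 : ∀ n ∈ range N, |trn s m x (n + 1) p - trn s m x n p| ≤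
        (if n = p.1 then |s.val ℝ x p| else 0) + (if n = m then |cst s x m p| else 0) := by
      intro n _
      unfold trn
      rcases lt_trichotomy n m with h | h | h
      · have hnm : ¬ n = m := by omega
        rw [if_pos (by omega), if_pos (by omega), if_neg hnm, cst_step, add_zero]
        split_ifs
        · exact le_rfl
        · rw [abs_zero]
      · rw [if_neg (by omega), if_pos (by omega), if_pos h, h]
        have e : (0 : ℕ × ℕ → ℝ) p - cst s x m p = - cst s x m p := by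
          rw [Pi.zero_apply, zero_sub]
        rw [e, abs_neg]
        have : (0 : ℝ) ≤ if m = p.1 then |s.val ℝ x p| else 0 := by
          split_ifs
          · exact abs_nonneg _
          · exact le_rfl
        linarith
      · have hnm : ¬ n = m := by omega
        rw [if_neg (by omega), if_neg (by omega), if_neg hnm, sub_self, abs_zero, add_zero]
        split_ifs
        · exact abs_nonneg _
        · exact le_rfl
    refine (Finset.sum_le_sum h1).trans ?_
    rw [Finset.sum_add_distrib, Finset.sum_ite_eq', Finset.sum_ite_eq']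
    have h2 := val_bound s x hx p
    have h3 := abs_cst_le s hx m p
    split_ifs <;> linarith

/-- the constant sequence as a point of the compact set -/
def cstX (x : s.XT ℝ) : XX s := if h : ‖x‖ ≤ 1 then ⟨cst s x, cst_mem s h⟩ else
  ⟨cst s 0, cst_mem s (by rw [norm_zero]; exact zero_le_one)⟩

/-- the truncated sequence as a point of the compact set -/
def trnX (m : ℕ) (x : s.XT ℝ) : XX s := if h : ‖x‖ ≤ 1 then ⟨trn s m x, trn_mem s m h⟩ else
  ⟨cst s 0, cst_mem s (by rw [norm_zero]; exact zero_le_one)⟩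

lemma cstX_coe {x : s.XT ℝ} (hx : ‖x‖ ≤ 1) : (cstX s x : ℕ → ℕ × ℕ → ℝ) = cst s x := by
  unfold cstX
  rw [dif_pos hx]

lemma trnX_coe (m : ℕ) {x : s.XT ℝ} (hx : ‖x‖ ≤ 1) :
    (trnX s m x : ℕ → ℕ × ℕ → ℝ) = trn s m x := by
  unfold trnX
  rw [dif_pos hx]

lemma LL_cst {x : s.XT ℝ} (hx : ‖x‖ ≤ 1) : LL (cst s x) = fun p => s.val ℝ x p := by
  have h1 := tendsto_LL s (cst_mem s hx)
  have h2 : Tendsto (cst s x) atTop (𝓝 fun p => s.val ℝ x p) := by
    refine tendsto_pi_nhds.2 fun p => ?_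
    refine tendsto_const_nhds.congr' ?_
    filter_upwards [eventually_gt_atTop p.1] with n hn
    unfold cst cut
    rw [if_pos hn]
  exact tendsto_nhds_unique h1 h2

lemma ff_cst {x : s.XT ℝ} (hx : ‖x‖ ≤ 1) : ff s (cstX s x) = T0 s x := by
  apply inc_inj s
  rw [inc_ff, cstX_coe s hx, LL_cst s hx, TT_val s hx]

lemma trn_comb (m : ℕ) (x y : s.XT ℝ) (a b : ℝ) :
    trn s m (a • x + b • y) = a • trn s m x + b • trn s m y := by
  funext n p
  have e : s.val ℝ (a • x + b • y) p = a * s.val ℝ x p + b * s.val ℝ y p := by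
    rw [map_add, map_smul, map_smul]
    rfl
  simp only [trn, cst, Pi.add_apply, Pi.smul_apply, smul_eq_mul]
  split_ifs
  · simp only [cut, e]
    split_ifs
    · rfl
    · ring
  · simp

lemma trn_zero (m : ℕ) : trn s m 0 = 0 := by
  have := trn_comb s m 0 0 0 0
  simpa using this

lemma norm_comb_le {x y : s.XT ℝ} (hx : ‖x‖ ≤ 1) (hy : ‖y‖ ≤ 1) {t : ℝ} (h0 : 0 ≤ t)
    (h1 : t ≤ 1) : ‖t • x + (1 - t) • y‖ ≤ 1 := by
  refine (norm_add_le _ _).trans ?_
  rw [norm_smul, norm_smul, Real.norm_of_nonneg h0, Real.norm_of_nonneg (by linarith)]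
  nlinarith

/-- uniform closeness of the values on the truncated sequences -/
lemma exists_close (F : XX s → W s) (hF : Continuous F) {ε : ℝ} (hε : 0 < ε) :
    ∃ m, ∀ x : s.XT ℝ, ‖x‖ ≤ 1 → ‖F (trnX s m x) - F (cstX s x)‖ ≤ ε := by
  by_contra hcon
  push Not at hcon
  choose x hx hx' using hcon
  obtain ⟨ψ, hψ, k, hk, hlim⟩ := (isCompact_XX s).tendsto_subseq (x := fun m =>
    (cstX s (x m) : ℕ → ℕ × ℕ → ℝ)) (fun m => (cstX s (x m)).2)
  have h1 : Tendsto (fun i => cstX s (x (k i))) atTop (𝓝 (⟨ψ, hψ⟩ : XX s)) :=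
    tendsto_subtype_rng.2 hlim
  have h2 : Tendsto (fun i => trnX s (k i) (x (k i))) atTop (𝓝 (⟨ψ, hψ⟩ : XX s)) := by
    refine tendsto_subtype_rng.2 (tendsto_pi_nhds.2 fun n => ?_)
    have h3 := tendsto_pi_nhds.1 hlim n
    refine h3.congr' ?_
    filter_upwards [eventually_ge_atTop n] with i hi
    have h4 : n ≤ k i := hi.trans (hk.id_le i)
    rw [trnX_coe s _ (hx _)]
    simp only [Function.comp_apply]
    rw [cstX_coe s (hx _)]
    unfold trn
    rw [if_pos h4]
  have h3 := (((hF.tendsto _).comp h2).sub ((hF.tendsto _).comp h1)).norm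
  rw [sub_self, norm_zero] at h3
  have h4 := ge_of_tendsto h3 (Eventually.of_forall fun i => (hx' (k i)).le)
  linarith

/-- finite rank -/
lemma finite_rank {N : Type*} [NormedAddCommGroup N] [NormedSpace ℝ N] (S : s.XT ℝ →L[ℝ] N)
    (m : ℕ) (h : ∀ x : s.XT ℝ, (∀ p ∈ PN m, s.val ℝ x p = 0) → S x = 0) :
    FiniteDimensional ℝ (LinearMap.range (S : s.XT ℝ →ₗ[ℝ] N)) := by
  let L : s.XT ℝ →ₗ[ℝ] (PN m → ℝ) :=
    { toFun := fun x p => s.val ℝ x p
      map_add' := fun x y => by funext p; rw [map_add]; rfl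
      map_smul' := fun c x => by funext p; rw [map_smul]; rfl }
  obtain ⟨r, hr⟩ := LinearMap.exists_rightInverse_of_surjective L.rangeRestrict
    L.range_rangeRestrict
  have h1 : ∀ x, S x = S (r (L.rangeRestrict x)) := by
    intro x
    have h2 : S (x - r (L.rangeRestrict x)) = 0 := by
      refine h _ fun p hp => ?_
      have h3 : L.rangeRestrict (r (L.rangeRestrict x)) = L.rangeRestrict x :=
        LinearMap.congr_fun hr _
      have h4 : L (r (L.rangeRestrict x)) = L x := congrArg Subtype.val h3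
      have h5 : L (r (L.rangeRestrict x)) ⟨p, hp⟩ = L x ⟨p, hp⟩ := by rw [h4]
      have h6 : s.val ℝ (r (L.rangeRestrict x)) p = s.val ℝ x p := h5
      rw [map_sub, BoundedContinuousFunction.sub_apply, h6, sub_self]
    rw [map_sub, sub_eq_zero] at h2
    exact h2
  have h2 : LinearMap.range (S : s.XT ℝ →ₗ[ℝ] N) ≤
      LinearMap.range ((S : s.XT ℝ →ₗ[ℝ] N) ∘ₗ r) := by
    rintro _ ⟨x, rfl⟩
    exact ⟨L.rangeRestrict x, (h1 x).symm⟩
  exact Submodule.finiteDimensional_of_le h2

/-- the map is not a pointwise limit of continuous affine maps -/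
theorem not_affineOne (F : ℕ → XX s → W s) (hF : ∀ j, Continuous (F j))
    (haff : ∀ j, ∀ (φ ψ χ : XX s) (t : ℝ), 0 ≤ t → t ≤ 1 →
      (χ : ℕ → ℕ × ℕ → ℝ) = t • (φ : ℕ → ℕ × ℕ → ℝ) + (1 - t) • (ψ : ℕ → ℕ × ℕ → ℝ) →
      F j χ = t • F j φ + (1 - t) • F j ψ)
    (hlim : ∀ φ, Tendsto (fun j => F j φ) atTop (𝓝 (ff s φ))) : False := by
  have hcomp : CompactSpace (XX s) := isCompact_iff_compactSpace.1 (isCompact_XX s)
  have hz : ‖(0 : s.XT ℝ)‖ ≤ 1 := by rw [norm_zero]; exact zero_le_one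
  have hm : ∀ j : ℕ, ∃ m, ∀ x : s.XT ℝ, ‖x‖ ≤ 1 →
      ‖F j (trnX s m x) - F j (cstX s x)‖ ≤ 1 / ((j : ℝ) + 1) := fun j =>
    exists_close s (F j) (hF j) (by positivity)
  choose m hm using hm
  have hS : ∀ j, ∃ S : s.XT ℝ →L[ℝ] W s, ∀ x, ‖x‖ ≤ 1 →
      S x = F j (trnX s (m j) x) - F j (trnX s (m j) 0) := by
    intro j
    obtain ⟨C, hC⟩ := (isCompact_range (hF j)).isBounded.exists_norm_le
    have hC' : ∀ φ, ‖F j φ‖ ≤ C := fun φ => hC _ ⟨φ, rfl⟩
    refine exists_extension _ (2 * C) (fun x y hx hy t h0 h1 => ?_) (sub_self _) (fun x hx => ?_)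
    · have h2 := haff j (trnX s (m j) x) (trnX s (m j) y) (trnX s (m j) (t • x + (1 - t) • y)) t
        h0 h1 (by
          rw [trnX_coe s _ hx, trnX_coe s _ hy, trnX_coe s _ (norm_comb_le s hx hy h0 h1),
            trn_comb])
      rw [h2, smul_sub, smul_sub]
      have : F j (trnX s (m j) 0) = t • F j (trnX s (m j) 0) + (1 - t) • F j (trnX s (m j) 0) := by
        rw [← add_smul]
        simp
      conv_lhs => rw [this]
      abel
    · refine (norm_sub_le _ _).trans ?_
      linarith [hC' (trnX s (m j) x), hC' (trnX s (m j) 0)]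
  choose S hS using hS
  refine no_approx s S (fun j => ?_) (fun x => ?_)
  · refine finite_rank s (S j) (m j) fun x hx => ?_
    -- scale to the unit ball
    have hr : (0 : ℝ) < ‖x‖ + 1 := by positivity
    have hy : ‖(‖x‖ + 1)⁻¹ • x‖ ≤ 1 := by
      rw [norm_smul, norm_inv, Real.norm_of_nonneg hr.le, inv_mul_le_iff₀ hr]
      linarith
    have h1 := hS j _ hy
    have h2 : trnX s (m j) ((‖x‖ + 1)⁻¹ • x) = trnX s (m j) 0 := by
      apply Subtype.ext
      rw [trnX_coe s _ hy, trnX_coe s _ hz]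
      funext n p
      simp only [trn, cst]
      split_ifs with h3
      · simp only [cut]
        split_ifs with h4
        · rw [map_smul, map_zero]
          have h5 : s.val ℝ x p = 0 := by
            by_cases h6 : p.2 < 2 ^ (p.1 + 2)
            · refine hx p ?_
              rw [PN, Finset.mem_product, Finset.mem_range, Finset.mem_range]
              exact ⟨by omega, h6.trans_le (Nat.pow_le_pow_right (by norm_num) (by omega))⟩
            · exact val_off s x p h6
          rw [BoundedContinuousFunction.smul_apply, h5, smul_zero]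
          rfl
        · rfl
      · rfl
    rw [h2, sub_self, map_smul] at h1
    exact (smul_eq_zero.1 h1).resolve_left (inv_ne_zero hr.ne')
  · -- pointwise convergence
    have key : ∀ y : s.XT ℝ, ‖y‖ ≤ 1 → Tendsto (fun j => S j y) atTop (𝓝 (T0 s y)) := by
      intro y hy
      have h1 : ∀ z : s.XT ℝ, ‖z‖ ≤ 1 →
          Tendsto (fun j => F j (trnX s (m j) z)) atTop (𝓝 (T0 s z)) := by
        intro z hz
        have h2 : Tendsto (fun j => F j (cstX s z)) atTop (𝓝 (T0 s z)) := by
          rw [← ff_cst s hz]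
          exact hlim _
        have h3 : Tendsto (fun j => F j (trnX s (m j) z) - F j (cstX s z)) atTop (𝓝 0) := by
          rw [tendsto_zero_iff_norm_tendsto_zero]
          exact squeeze_zero (fun _ => norm_nonneg _) (fun j => hm j z hz)
            tendsto_one_div_add_atTop_nhds_zero_nat
        have h4 := h3.add h2
        rw [zero_add] at h4
        refine h4.congr fun j => ?_
        rw [sub_add_cancel]
      have h2 := (h1 y hy).sub (h1 0 hz)
      rw [map_zero, sub_zero] at h2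
      refine h2.congr fun j => ?_
      rw [hS j y hy]
    have hr : (0 : ℝ) < ‖x‖ + 1 := by positivity
    have hy : ‖(‖x‖ + 1)⁻¹ • x‖ ≤ 1 := by
      rw [norm_smul, norm_inv, Real.norm_of_nonneg hr.le, inv_mul_le_iff₀ hr]
      linarith
    have h1 := (key _ hy).const_smul (‖x‖ + 1)
    rw [map_smul, smul_smul, mul_inv_cancel₀ hr.ne', one_smul] at h1
    refine h1.congr fun j => ?_
    rw [map_smul, smul_smul, mul_inv_cancel₀ hr.ne', one_smul]

end Pool.Agent.H88.CAP
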