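import Pool.Agent.H88.CAP.Trace

set_option autoImplicit false
set_option linter.unusedSectionVars false

/-! # The compact convex set and the affine map -/

open Filter Topology Finset
open scoped BoundedContinuousFunction unitInterval

noncomputable section

namespace Pool.Agent.H88.CAP

open Pool.Agent.H812R2.AP Pool.Agent.BAPp

variable (s : Sys)

/-- truncation of numbers -/
def clamp (a : ℝ) : ℝ := max (-1) (min a 1)

lemma clamp_eq {a : ℝ} (h : |a| ≤ 1) : clamp a = a := by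
  unfold clamp
  rw [abs_le] at h
  rw [min_eq_left h.2, max_eq_right h.1]

lemma abs_clamp_le (a : ℝ) : |clamp a| ≤ 1 := by
  unfold clamp
  rw [abs_le]
  exact ⟨le_max_left _ _, max_le (by norm_num) (min_le_right _ _)⟩

lemma continuous_clamp : Continuous clamp := by
  unfold clamp
  fun_prop

/-- the truncated family -/
def clFun (w : ℕ × ℕ → ℝ) (p : ℕ × ℕ) : ℝ := if p.2 < 2 ^ (p.1 + 2) then clamp (w p) else 0

lemma abs_clFun_le (w : ℕ × ℕ → ℝ) (p : ℕ × ℕ) : |clFun w p| ≤ 1 := by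
  unfold clFun
  split_ifs
  · exact abs_clamp_le _
  · simp

/-- the truncated family, as a bounded function -/
def cl (w : ℕ × ℕ → ℝ) : Z ℝ :=
  BoundedContinuousFunction.ofNormedAddCommGroupDiscrete (clFun w) 1 fun p => by
    rw [Real.norm_eq_abs]; exact abs_clFun_le w p

lemma cl_apply (w : ℕ × ℕ → ℝ) (p : ℕ × ℕ) : cl w p = clFun w p := rfl

/-- the map into the ambient space -/
def TT (w : ℕ × ℕ → ℝ) : A := Tz idI (cl w)

lemma TT_apply (w : ℕ × ℕ → ℝ) (t : I) (p : ℕ × ℕ) :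
    TT w (t, p) = wt p.1 t * (t * clFun w p) := rfl

/-- cutting off the high levels -/
def cut (n : ℕ) (w : ℕ × ℕ → ℝ) (p : ℕ × ℕ) : ℝ := if p.1 < n then w p else 0

lemma cut_add (n : ℕ) (v w : ℕ × ℕ → ℝ) : cut n (v + w) = cut n v + cut n w := by
  funext p
  simp only [cut, Pi.add_apply]
  split_ifs
  · rfl
  · rw [add_zero]

lemma cut_smul (n : ℕ) (c : ℝ) (w : ℕ × ℕ → ℝ) : cut n (c • w) = c • cut n w := by
  funext p
  simp only [cut, Pi.smul_apply]
  split_ifs
  · rfl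
  · rw [smul_zero]

lemma cut_zero (n : ℕ) : cut n 0 = 0 := by
  funext p
  simp [cut]

lemma continuous_cut (n : ℕ) : Continuous (cut n) := by
  refine continuous_pi fun p => ?_
  unfold cut
  split_ifs
  · exact continuous_apply p
  · exact continuous_const

lemma norm_TT_cut (n : ℕ) (w : ℕ × ℕ → ℝ) : ‖TT w - TT (cut n w)‖ ≤ 5 / (n + 1) := by
  refine (A.norm_le (by positivity)).2 ?_
  rintro ⟨t, p⟩
  rw [A.sub_apply, TT_apply, TT_apply]
  by_cases h : p.1 < n
  · have e : clFun (cut n w) p = clFun w p := by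
      unfold clFun cut
      rw [if_pos h]
    rw [e, sub_self, norm_zero]
    positivity
  · have e : clFun (cut n w) p = 0 := by
      unfold clFun cut
      rw [if_neg h, clamp_eq (by simp)]
      simp
    rw [e, mul_zero, mul_zero, sub_zero, Real.norm_eq_abs, abs_mul, abs_mul,
      abs_of_pos (wt_pos _ _), abs_of_nonneg t.2.1]
    have h1 := mul_wt_le p.1 t.2.1 t.2.2
    have h2 := abs_clFun_le w p
    have h3 : (5 : ℝ) / (p.1 + 1) ≤ 5 / (n + 1) := by
      have : (n : ℝ) ≤ p.1 := by exact_mod_cast not_lt.1 h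
      gcongr
    have h4 : 0 ≤ (t : ℝ) * wt p.1 t := mul_nonneg t.2.1 (wt_pos _ _).le
    calc wt p.1 t * ((t : ℝ) * |clFun w p|) = ((t : ℝ) * wt p.1 t) * |clFun w p| := by ring
      _ ≤ ((t : ℝ) * wt p.1 t) * 1 := mul_le_mul_of_nonneg_left h2 h4
      _ ≤ 5 / (n + 1) := by rw [mul_one]; exact h1.trans h3

/-- unit vectors -/
def dl (p : ℕ × ℕ) : Z ℝ :=
  BoundedContinuousFunction.ofNormedAddCommGroupDiscrete (fun q => if q = p then (1 : ℝ) else 0) 1
    fun q => by split_ifs <;> simp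

lemma dl_apply (p q : ℕ × ℕ) : dl p q = if q = p then (1 : ℝ) else 0 := rfl

/-- finite sets of indices -/
def PN (n : ℕ) : Finset (ℕ × ℕ) := (Finset.range n) ×ˢ (Finset.range (2 ^ (n + 2)))

lemma TT_cut_eq (n : ℕ) (w : ℕ × ℕ → ℝ) :
    TT (cut n w) = ∑ p ∈ PN n, clFun (cut n w) p • Tz idI (dl p) := by
  ext ⟨t, q⟩
  rw [TT_apply, A.sum_apply]
  have h1 : ∀ p ∈ PN n, (clFun (cut n w) p • Tz idI (dl p)) (t, q) =
      if p = q then wt q.1 t * (t * clFun (cut n w) q) else 0 := by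
    intro p _
    rw [A.smul_apply, Tz_apply, dl_apply, idI_apply]
    by_cases h : p = q
    · subst h
      rw [if_pos rfl, if_pos rfl]
      ring
    · rw [if_neg (Ne.symm h), if_neg h]
      ring
  rw [Finset.sum_congr rfl h1, Finset.sum_ite_eq']
  split_ifs with h
  · rfl
  · have e : clFun (cut n w) q = 0 := by
      unfold clFun cut
      by_cases h2 : q.1 < n
      · rw [if_neg]
        intro h3
        apply h
        rw [PN, Finset.mem_product, Finset.mem_range, Finset.mem_range]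
        exact ⟨h2, h3.trans_le (Nat.pow_le_pow_right (by norm_num) (by omega))⟩
      · rw [if_neg h2, clamp_eq (by simp)]
        simp
    rw [e, mul_zero, mul_zero]

lemma continuous_TT_cut (n : ℕ) : Continuous fun w => TT (cut n w) := by
  simp only [TT_cut_eq]
  refine continuous_finsetSum _ fun p _ => ?_
  have h : Continuous fun w : ℕ × ℕ → ℝ => clFun (cut n w) p := by
    unfold clFun cut
    split_ifs
    · exact continuous_clamp.comp (continuous_apply p)
    · exact continuous_const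
    · exact continuous_const
  exact h.smul continuous_const

lemma continuous_TT : Continuous TT := by
  refine continuous_of_uniform_approx_of_continuous (f := TT) fun u hu => ?_
  obtain ⟨ε, hε, hεu⟩ := Metric.mem_uniformity_dist.1 hu
  obtain ⟨n, hn⟩ := exists_nat_gt (5 / ε)
  refine ⟨fun w => TT (cut n w), continuous_TT_cut n, fun w => hεu ?_⟩
  rw [dist_eq_norm]
  refine (norm_TT_cut n w).trans_lt ?_
  have hn0 : (0 : ℝ) < n + 1 := by positivity
  rw [div_lt_iff₀ hn0]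
  rw [div_lt_iff₀ hε] at hn
  nlinarith

/-- the unit ball of Davie's space -/
def K0 : Set (ℕ × ℕ → ℝ) := {w | ∃ x : s.XT ℝ, ‖x‖ ≤ 1 ∧ w = fun p => s.val ℝ x p}

/-- its closure -/
def KK : Set (ℕ × ℕ → ℝ) := closure (K0 s)

lemma val_off (x : s.XT ℝ) (p : ℕ × ℕ) (hp : ¬ p.2 < 2 ^ (p.1 + 2)) : s.val ℝ x p = 0 := by
  refine s.X_induction (p := fun x => x p = 0) ?_ ?_ ?_ ?_ ?_ (s.val_mem ℝ x)
  · intro l i _
    have : ee s.sg s.tt l i p = 0 := by
      unfold ee
      rw [if_neg hp]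
    rw [s.E_apply ℝ, this]
    simp
  · rfl
  · intro x y hx hy
    rw [BoundedContinuousFunction.add_apply, hx, hy, add_zero]
  · intro c x hx
    rw [BoundedContinuousFunction.smul_apply, hx, smul_zero]
  · exact isClosed_eq (continuous_eval_const _) continuous_const

lemma val_bound (x : s.XT ℝ) (hx : ‖x‖ ≤ 1) (p : ℕ × ℕ) : |s.val ℝ x p| ≤ 1 := by
  rw [← s.norm_val ℝ] at hx
  exact ((s.val ℝ x).norm_coe_le_norm p).trans hx

lemma KK_bound {w : ℕ × ℕ → ℝ} (hw : w ∈ KK s) (p : ℕ × ℕ) : |w p| ≤ 1 := by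
  have h : KK s ⊆ {w | |w p| ≤ 1} := by
    refine closure_minimal ?_ (isClosed_le (continuous_apply p).abs continuous_const)
    rintro _ ⟨x, hx, rfl⟩
    exact val_bound s x hx p
  exact h hw

lemma KK_off {w : ℕ × ℕ → ℝ} (hw : w ∈ KK s) (p : ℕ × ℕ) (hp : ¬ p.2 < 2 ^ (p.1 + 2)) :
    w p = 0 := by
  have h : KK s ⊆ {w | w p = 0} := by
    refine closure_minimal ?_ (isClosed_eq (continuous_apply p) continuous_const)
    rintro _ ⟨x, hx, rfl⟩
    exact val_off s x p hp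
  exact h hw

lemma clFun_eq {w : ℕ × ℕ → ℝ} (hw : w ∈ KK s) (p : ℕ × ℕ) : clFun w p = w p := by
  unfold clFun
  split_ifs with h
  · exact clamp_eq (KK_bound s hw p)
  · exact (KK_off s hw p h).symm

lemma isCompact_KK : IsCompact (KK s) := by
  have h1 : IsCompact (Set.pi Set.univ fun _ : ℕ × ℕ => Set.Icc (-1 : ℝ) 1) :=
    isCompact_univ_pi fun _ => isCompact_Icc
  refine h1.of_isClosed_subset isClosed_closure fun w hw p _ => ?_
  exact abs_le.1 (KK_bound s hw p)

lemma convex_KK : Convex ℝ (KK s) := by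
  refine Convex.closure ?_
  rintro _ ⟨x, hx, rfl⟩ _ ⟨y, hy, rfl⟩ a b ha hb hab
  refine ⟨a • x + b • y, ?_, ?_⟩
  · refine (norm_add_le _ _).trans ?_
    rw [norm_smul, norm_smul, Real.norm_of_nonneg ha, Real.norm_of_nonneg hb]
    nlinarith
  · funext p
    rw [map_add, map_smul, map_smul]
    rfl

lemma mem_K0 {x : s.XT ℝ} (hx : ‖x‖ ≤ 1) : (fun p => s.val ℝ x p) ∈ KK s :=
  subset_closure ⟨x, hx, rfl⟩

lemma zero_mem_KK : (0 : ℕ × ℕ → ℝ) ∈ KK s := by
  have h := mem_K0 s (x := 0) (by rw [norm_zero]; exact zero_le_one)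
  rw [map_zero] at h
  exact h

lemma TT_val {x : s.XT ℝ} (hx : ‖x‖ ≤ 1) : TT (fun p => s.val ℝ x p) = inc s (T0 s x) := by
  rw [inc_T0]
  unfold TT
  congr 1
  ext p
  rw [cl_apply, clFun_eq s (mem_K0 s hx)]

lemma TT_mem {w : ℕ × ℕ → ℝ} (hw : w ∈ KK s) : TT w ∈ EE s := by
  have h : KK s ⊆ TT ⁻¹' (EE s : Set A) := by
    refine closure_minimal ?_ ((isClosed_EE s).preimage continuous_TT)
    rintro _ ⟨x, hx, rfl⟩
    rw [Set.mem_preimage, TT_val s hx]
    exact inc_mem s _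
  exact h hw

lemma TT_affine {v w : ℕ × ℕ → ℝ} (hv : v ∈ KK s) (hw : w ∈ KK s) {a b : ℝ} (ha : 0 ≤ a)
    (hb : 0 ≤ b) (hab : a + b = 1) : TT (a • v + b • w) = a • TT v + b • TT w := by
  ext ⟨t, p⟩
  rw [A.add_apply, A.smul_apply, A.smul_apply, TT_apply, TT_apply, TT_apply,
    clFun_eq s (convex_KK s hv hw ha hb hab), clFun_eq s hv, clFun_eq s hw, Pi.add_apply,
    Pi.smul_apply, Pi.smul_apply, smul_eq_mul, smul_eq_mul]
  ring

/-- the compact convex set -/
def XX : Set (ℕ → ℕ × ℕ → ℝ) :=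
  {φ | (∀ n, φ n ∈ cut n '' KK s) ∧ ∀ (p : ℕ × ℕ) (N : ℕ),
    ∑ n ∈ range N, |φ (n + 1) p - φ n p| ≤ 2}

lemma isCompact_XX : IsCompact (XX s) := by
  have h1 : IsCompact (Set.pi Set.univ fun n : ℕ => cut n '' KK s) :=
    isCompact_univ_pi fun n => (isCompact_KK s).image (continuous_cut n)
  have h2 : IsClosed {φ : ℕ → ℕ × ℕ → ℝ | ∀ (p : ℕ × ℕ) (N : ℕ),
      ∑ n ∈ range N, |φ (n + 1) p - φ n p| ≤ 2} := by
    simp only [Set.ofPred_forall]
    refine isClosed_iInter fun p => isClosed_iInter fun N => isClosed_le ?_ continuous_const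
    refine continuous_finsetSum _ fun n _ => ?_
    have e1 : Continuous fun φ : ℕ → ℕ × ℕ → ℝ => φ (n + 1) p :=
      (continuous_apply p).comp (continuous_apply (n + 1))
    have e2 : Continuous fun φ : ℕ → ℕ × ℕ → ℝ => φ n p :=
      (continuous_apply p).comp (continuous_apply n)
    exact (e1.sub e2).abs
  have e : XX s = (Set.pi Set.univ fun n : ℕ => cut n '' KK s) ∩
      {φ : ℕ → ℕ × ℕ → ℝ | ∀ (p : ℕ × ℕ) (N : ℕ),
      ∑ n ∈ range N, |φ (n + 1) p - φ n p| ≤ 2} := by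
    ext φ
    simp only [XX, Set.mem_ofPred_eq, Set.mem_inter_iff, Set.mem_pi, Set.mem_univ,
      forall_true_left]
  rw [e]
  exact h1.inter_right h2

lemma convex_XX : Convex ℝ (XX s) := by
  rintro φ ⟨hφ1, hφ2⟩ ψ ⟨hψ1, hψ2⟩ a b ha hb hab
  refine ⟨fun n => ?_, fun p N => ?_⟩
  · obtain ⟨v, hv, hv'⟩ := hφ1 n
    obtain ⟨w, hw, hw'⟩ := hψ1 n
    refine ⟨a • v + b • w, convex_KK s hv hw ha hb hab, ?_⟩
    rw [cut_add, cut_smul, cut_smul, hv', hw']
    rfl
  · have h1 : ∀ n ∈ range N, |(a • φ + b • ψ) (n + 1) p - (a • φ + b • ψ) n p| ≤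
        a * |φ (n + 1) p - φ n p| + b * |ψ (n + 1) p - ψ n p| := by
      intro n _
      have e : (a • φ + b • ψ) (n + 1) p - (a • φ + b • ψ) n p =
          a * (φ (n + 1) p - φ n p) + b * (ψ (n + 1) p - ψ n p) := by
        simp only [Pi.add_apply, Pi.smul_apply, smul_eq_mul]
        ring
      rw [e]
      refine (abs_add_le _ _).trans ?_
      rw [abs_mul, abs_mul, abs_of_nonneg ha, abs_of_nonneg hb]
    refine (Finset.sum_le_sum h1).trans ?_
    rw [Finset.sum_add_distrib, ← Finset.mul_sum, ← Finset.mul_sum]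
    have h2 := mul_le_mul_of_nonneg_left (hφ2 p N) ha
    have h3 := mul_le_mul_of_nonneg_left (hψ2 p N) hb
    calc _ ≤ a * 2 + b * 2 := add_le_add h2 h3
      _ = 2 := by rw [← add_mul, hab, one_mul]

/-- the limit of the sequences -/
def LL (φ : ℕ → ℕ × ℕ → ℝ) (p : ℕ × ℕ) : ℝ := limUnder atTop fun n => φ n p

lemma tendsto_LL_apply {φ : ℕ → ℕ × ℕ → ℝ} (hφ : φ ∈ XX s) (p : ℕ × ℕ) :
    Tendsto (fun n => φ n p) atTop (𝓝 (LL φ p)) := by
  have h1 : Summable fun n => |φ (n + 1) p - φ n p| :=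
    summable_of_sum_range_le (fun _ => abs_nonneg _) (hφ.2 p)
  have h2 : CauchySeq fun n => φ n p := by
    refine cauchySeq_of_summable_dist ?_
    refine h1.congr fun n => ?_
    rw [Real.dist_eq, abs_sub_comm]
  exact h2.tendsto_limUnder

lemma tendsto_LL {φ : ℕ → ℕ × ℕ → ℝ} (hφ : φ ∈ XX s) : Tendsto φ atTop (𝓝 (LL φ)) :=
  tendsto_pi_nhds.2 fun p => tendsto_LL_apply s hφ p

lemma LL_mem {φ : ℕ → ℕ × ℕ → ℝ} (hφ : φ ∈ XX s) : LL φ ∈ KK s := by
  choose w hw hw' using hφ.1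
  have h1 : Tendsto w atTop (𝓝 (LL φ)) := by
    refine tendsto_pi_nhds.2 fun p => ?_
    refine (tendsto_LL_apply s hφ p).congr' ?_
    filter_upwards [eventually_gt_atTop p.1] with n hn
    rw [← hw' n]
    unfold cut
    rw [if_pos hn]
  exact (isCompact_KK s).isClosed.mem_of_tendsto h1 (Eventually.of_forall hw)

/-- the affine map -/
def ff (φ : XX s) : W s := mkW s (TT (LL φ)) (TT_mem s (LL_mem s φ.2))

lemma inc_ff (φ : XX s) : inc s (ff s φ) = TT (LL φ) := rfl

lemma LL_affine {φ ψ χ : ℕ → ℕ × ℕ → ℝ} (hφ : φ ∈ XX s) (hψ : ψ ∈ XX s) (hχ : χ ∈ XX s)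
    {a b : ℝ} (h : χ = a • φ + b • ψ) : LL χ = a • LL φ + b • LL ψ := by
  have h1 := tendsto_LL s hχ
  have h2 : Tendsto χ atTop (𝓝 (a • LL φ + b • LL ψ)) := by
    have h3 := ((tendsto_LL s hφ).const_smul a).add ((tendsto_LL s hψ).const_smul b)
    refine h3.congr fun n => ?_
    rw [h]
    rfl
  exact tendsto_nhds_unique h1 h2

lemma ff_affine (φ ψ χ : XX s) (t : ℝ) (h0 : 0 ≤ t) (h1 : t ≤ 1)
    (h : (χ : ℕ → ℕ × ℕ → ℝ) = t • (φ : ℕ → ℕ × ℕ → ℝ) + (1 - t) • (ψ : ℕ → ℕ × ℕ → ℝ)) :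
    ff s χ = t • ff s φ + (1 - t) • ff s ψ := by
  apply inc_inj s
  rw [inc_ff, map_add, map_smul, map_smul, inc_ff, inc_ff,
    LL_affine s φ.2 ψ.2 χ.2 h, TT_affine s (LL_mem s φ.2) (LL_mem s ψ.2) h0 (by linarith)
      (by ring)]

/-- the map is of the first Baire class -/
lemma ff_baire : ∃ F : ℕ → XX s → W s, (∀ n, Continuous (F n)) ∧
    ∀ φ, Tendsto (fun n => F n φ) atTop (𝓝 (ff s φ)) := by
  have : CompactSpace (XX s) := isCompact_iff_compactSpace.1 (isCompact_XX s)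
  have hcont : ∀ n, Continuous fun φ : XX s => TT ((φ : ℕ → ℕ × ℕ → ℝ) n) := fun n =>
    continuous_TT.comp ((continuous_apply n).comp continuous_subtype_val)
  have hex : ∀ n : ℕ, ∃ g : C(XX s, W s), ∀ φ : XX s,
      g φ ∈ {e : W s | ‖inc s e - TT ((φ : ℕ → ℕ × ℕ → ℝ) n)‖ < 6 / (n + 1)} := by
    intro n
    refine exists_continuous_forall_mem_convex_of_local_const
      (t := fun φ : XX s => {e : W s | ‖inc s e - TT ((φ : ℕ → ℕ × ℕ → ℝ) n)‖ < 6 / (n + 1)})
      (fun φ => ?_) (fun φ => ?_)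
    · intro x hx y hy a b ha hb hab
      rw [Set.mem_ofPred_eq] at hx hy ⊢
      set c := TT ((φ : ℕ → ℕ × ℕ → ℝ) n)
      have e : inc s (a • x + b • y) - c = a • (inc s x - c) + b • (inc s y - c) := by
        rw [map_add, map_smul, map_smul, smul_sub, smul_sub]
        have : c = a • c + b • c := by rw [← add_smul, hab, one_smul]
        conv_lhs => rw [this]
        abel
      rw [e]
      refine (norm_add_le _ _).trans_lt ?_
      rw [norm_smul, norm_smul, Real.norm_of_nonneg ha, Real.norm_of_nonneg hb]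
      rcases ha.eq_or_lt with h | h
      · subst h
        have hb1 : b = 1 := by linarith
        rw [hb1, zero_mul, zero_add, one_mul]
        exact hy
      · have h1 : a * ‖inc s x - c‖ < a * (6 / (n + 1)) := mul_lt_mul_of_pos_left hx h
        have h2 : b * ‖inc s y - c‖ ≤ b * (6 / (n + 1)) := mul_le_mul_of_nonneg_left hy.le hb
        calc _ < a * (6 / (n + 1)) + b * (6 / (n + 1)) := add_lt_add_of_lt_of_le h1 h2
          _ = _ := by rw [← add_mul, hab, one_mul]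
    · obtain ⟨w, hw, hw'⟩ := φ.2.1 n
      refine ⟨mkW s (TT w) (TT_mem s hw), ?_⟩
      have h1 : ‖inc s (mkW s (TT w) (TT_mem s hw)) - TT ((φ : ℕ → ℕ × ℕ → ℝ) n)‖ <
          6 / (n + 1) := by
        rw [inc_mkW, ← hw']
        refine (norm_TT_cut n w).trans_lt ?_
        gcongr
        norm_num
      exact (((continuous_const.sub (hcont n)).norm).tendsto φ).eventually_lt_const h1
  choose g hg using hex
  refine ⟨fun n => g n, fun n => (g n).continuous, fun φ => ?_⟩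
  rw [tendsto_iff_norm_sub_tendsto_zero]
  have h1 : Tendsto (fun n => TT ((φ : ℕ → ℕ × ℕ → ℝ) n)) atTop (𝓝 (TT (LL φ))) :=
    (continuous_TT.tendsto _).comp (tendsto_LL s φ.2)
  have h2 : Tendsto (fun n => ‖TT ((φ : ℕ → ℕ × ℕ → ℝ) n) - TT (LL φ)‖) atTop (𝓝 0) :=
    tendsto_iff_norm_sub_tendsto_zero.1 h1
  have h3 : Tendsto (fun n : ℕ => (6 : ℝ) / (n + 1)) atTop (𝓝 0) := by
    have := (tendsto_one_div_add_atTop_nhds_zero_nat (𝕜 := ℝ)).const_mul 6
    rw [mul_zero] at this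
    refine this.congr fun n => ?_
    ring
  have h4 := h3.add h2
  rw [add_zero] at h4
  refine squeeze_zero (fun _ => norm_nonneg _) (fun n => ?_) h4
  rw [← norm_inc, map_sub, inc_ff]
  have e : inc s (g n φ) - TT (LL φ) = (inc s (g n φ) - TT ((φ : ℕ → ℕ × ℕ → ℝ) n)) +
      (TT ((φ : ℕ → ℕ × ℕ → ℝ) n) - TT (LL φ)) := by abel
  rw [e]
  refine (norm_add_le _ _).trans ?_
  have := hg n φ
  rw [Set.mem_ofPred_eq] at this
  linarith

end Pool.Agent.H88.CAP
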