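import Pool.Graph.R_seed8.H812R2.AP.NoAP

set_option autoImplicit false
set_option linter.unusedSectionVars false

/-! # A Banach space with the compact approximation property: the space and the operators -/

open Filter Topology Finset
open scoped BoundedContinuousFunction unitInterval

noncomputable section

namespace Pool.Agent.H88.CAP

open Pool.Agent.H812R2.AP Pool.Agent.BAPp

variable (s : Sys)

/-- the weights -/
def wt (k : ℕ) (t : ℝ) : ℝ := Real.exp (-((k : ℝ) * t / 4))

lemma wt_pos (k : ℕ) (t : ℝ) : 0 < wt k t := Real.exp_pos _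

lemma wt_le_one (k : ℕ) {t : ℝ} (ht : 0 ≤ t) : wt k t ≤ 1 := by
  unfold wt
  rw [Real.exp_le_one_iff]
  have : 0 ≤ (k : ℝ) * t / 4 := by positivity
  linarith

lemma wt_add (k : ℕ) (a b : ℝ) : wt k a * wt k b = wt k (a + b) := by
  unfold wt
  rw [← Real.exp_add]
  congr 1
  ring

lemma mul_wt_le (k : ℕ) {t : ℝ} (ht : 0 ≤ t) (ht1 : t ≤ 1) : t * wt k t ≤ 5 / (k + 1) := by
  have hk : (0 : ℝ) < k + 1 := by positivity
  rw [le_div_iff₀ hk]
  have h1 : (k : ℝ) * t / 4 * wt k t ≤ 1 := by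
    have h2 := Real.add_one_le_exp ((k : ℝ) * t / 4)
    have h3 : Real.exp ((k : ℝ) * t / 4) * wt k t = 1 := by
      unfold wt
      rw [← Real.exp_add, add_neg_cancel, Real.exp_zero]
    have h4 := wt_pos k t
    nlinarith
  have h5 := wt_le_one k ht
  have h6 := wt_pos k t
  nlinarith

lemma wt_anti (k : ℕ) {a b : ℝ} (h : a ≤ b) : wt k b ≤ wt k a := by
  unfold wt
  rw [Real.exp_le_exp]
  have : (k : ℝ) * a ≤ k * b := mul_le_mul_of_nonneg_left h (Nat.cast_nonneg _)
  linarith

lemma wt_anti' {k l : ℕ} (h : k ≤ l) {t : ℝ} (ht : 0 ≤ t) : wt l t ≤ wt k t := by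
  unfold wt
  rw [Real.exp_le_exp]
  have : (k : ℝ) * t ≤ l * t := mul_le_mul_of_nonneg_right (by exact_mod_cast h) ht
  linarith

lemma continuous_wt (k : ℕ) : Continuous (wt k) := by
  unfold wt
  fun_prop

/-- the index set -/
abbrev D := I × (ℕ × ℕ)

/-- the ambient space: the bounded continuous functions on the index set -/
def A : Type := D →ᵇ ℝ

namespace A

instance : NormedAddCommGroup A := inferInstanceAs (NormedAddCommGroup (D →ᵇ ℝ))

instance : NormedSpace ℝ A := inferInstanceAs (NormedSpace ℝ (D →ᵇ ℝ))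

instance : CompleteSpace A := inferInstanceAs (CompleteSpace (D →ᵇ ℝ))

instance : FunLike A D ℝ := inferInstanceAs (FunLike (D →ᵇ ℝ) D ℝ)

@[ext] lemma ext {F G : A} (h : ∀ x, F x = G x) : F = G :=
  BoundedContinuousFunction.ext h

lemma add_apply (F G : A) (x : D) : (F + G) x = F x + G x := rfl

lemma sub_apply (F G : A) (x : D) : (F - G) x = F x - G x := rfl

lemma smul_apply (c : ℝ) (F : A) (x : D) : (c • F) x = c * F x := rfl

lemma zero_apply (x : D) : (0 : A) x = 0 := rfl

lemma norm_le {F : A} {C : ℝ} (hC : 0 ≤ C) : ‖F‖ ≤ C ↔ ∀ x, ‖F x‖ ≤ C :=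
  BoundedContinuousFunction.norm_le (f := (F : D →ᵇ ℝ)) hC

lemma norm_coe_le (F : A) (x : D) : ‖F x‖ ≤ ‖F‖ :=
  BoundedContinuousFunction.norm_coe_le_norm (F : D →ᵇ ℝ) x

/-- a continuous bounded function, as an element of the ambient space -/
def mk (f : D → ℝ) (hf : Continuous f) (C : ℝ) (hC : ∀ x, ‖f x‖ ≤ C) : A :=
  (BoundedContinuousFunction.ofNormedAddCommGroup f hf C hC : D →ᵇ ℝ)

lemma mk_apply (f : D → ℝ) (hf : Continuous f) (C : ℝ) (hC : ∀ x, ‖f x‖ ≤ C) (x : D) :
    mk f hf C hC x = f x := rfl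

/-- evaluation at a point -/
def evalL (x : D) : A →L[ℝ] ℝ :=
  LinearMap.mkContinuous
    { toFun := fun F => F x
      map_add' := fun F G => add_apply F G x
      map_smul' := fun c F => smul_apply c F x } 1
    (fun F => by rw [one_mul]; exact norm_coe_le F x)

lemma evalL_apply (x : D) (F : A) : evalL x F = F x := rfl

lemma continuous_apply (x : D) : Continuous fun F : A => F x := (evalL x).continuous

lemma sum_apply {ι : Type*} (t : Finset ι) (f : ι → A) (x : D) :
    (∑ i ∈ t, f i) x = ∑ i ∈ t, f i x := by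
  have := map_sum (evalL x) f t
  simpa only [evalL_apply] using this

end A

lemma cont_Tz (h : C(I, ℝ)) (z : Z ℝ) :
    Continuous (fun x : D => wt x.2.1 x.1 * (h x.1 * z x.2)) := by
  rw [continuous_prod_of_discrete_right]
  intro p
  have h1 : Continuous fun t : I => wt p.1 (t : ℝ) := (continuous_wt p.1).comp continuous_subtype_val
  have h2 : Continuous fun t : I => h t * z p := h.continuous.mul continuous_const
  exact h1.mul h2

lemma bound_Tz (h : C(I, ℝ)) (z : Z ℝ) (x : D) :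
    ‖wt x.2.1 x.1 * (h x.1 * z x.2)‖ ≤ ‖h‖ * ‖z‖ := by
  obtain ⟨t, p⟩ := x
  dsimp only
  rw [norm_mul, norm_mul, Real.norm_of_nonneg (wt_pos _ _).le]
  have h1 := wt_le_one p.1 t.2.1
  have h2 := h.norm_coe_le_norm t
  have h3 := z.norm_coe_le_norm p
  have h4 : ‖h t‖ * ‖z p‖ ≤ ‖h‖ * ‖z‖ := mul_le_mul h2 h3 (norm_nonneg _) (norm_nonneg _)
  calc wt p.1 t * (‖h t‖ * ‖z p‖) ≤ 1 * (‖h‖ * ‖z‖) :=
        mul_le_mul h1 h4 (by positivity) zero_le_one
    _ = ‖h‖ * ‖z‖ := one_mul _

/-- multiplication by a function of `t` and by the weights -/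
def TzFun (h : C(I, ℝ)) (z : Z ℝ) : A :=
  A.mk (fun x : D => wt x.2.1 x.1 * (h x.1 * z x.2)) (cont_Tz h z) (‖h‖ * ‖z‖) (bound_Tz h z)

lemma TzFun_apply (h : C(I, ℝ)) (z : Z ℝ) (x : D) :
    TzFun h z x = wt x.2.1 x.1 * (h x.1 * z x.2) := rfl

lemma norm_TzFun_le (h : C(I, ℝ)) (z : Z ℝ) : ‖TzFun h z‖ ≤ ‖h‖ * ‖z‖ :=
  (A.norm_le (by positivity)).2 fun x => bound_Tz h z x

/-- multiplication by a function of `t` and by the weights, as an operator -/
def Tz (h : C(I, ℝ)) : Z ℝ →L[ℝ] A :=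
  LinearMap.mkContinuous
    { toFun := TzFun h
      map_add' := fun x y => by
        ext d
        rw [A.add_apply, TzFun_apply, TzFun_apply, TzFun_apply,
          BoundedContinuousFunction.add_apply]
        ring
      map_smul' := fun c x => by
        ext d
        rw [RingHom.id_apply, A.smul_apply, TzFun_apply, TzFun_apply,
          BoundedContinuousFunction.smul_apply, smul_eq_mul]
        ring } ‖h‖ (fun z => norm_TzFun_le h z)

lemma Tz_apply (h : C(I, ℝ)) (z : Z ℝ) (x : D) : Tz h z x = wt x.2.1 x.1 * (h x.1 * z x.2) := rfl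

/-- the generators -/
def gens : Set A := {F | ∃ (l i : ℕ) (h : C(I, ℝ)), i < 2 ^ l ∧ h 0 = 0 ∧ F = Tz h (s.E ℝ l i)}

/-- the space -/
def EE : Submodule ℝ A := (Submodule.span ℝ (gens s)).topologicalClosure

lemma isClosed_EE : IsClosed (EE s : Set A) := Submodule.isClosed_topologicalClosure _

instance : CompleteSpace (EE s) := (isClosed_EE s).completeSpace_coe

lemma gen_mem {l i : ℕ} (h : C(I, ℝ)) (hi : i < 2 ^ l) (h0 : h 0 = 0) :
    Tz h (s.E ℝ l i) ∈ EE s :=
  Submodule.le_topologicalClosure _ (Submodule.subset_span ⟨l, i, h, hi, h0, rfl⟩)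

lemma EE_induction {p : A → Prop} (hgen : ∀ l i (h : C(I, ℝ)), i < 2 ^ l → h 0 = 0 →
      p (Tz h (s.E ℝ l i))) (h0 : p 0)
    (hadd : ∀ x y, p x → p y → p (x + y)) (hsmul : ∀ (c : ℝ) x, p x → p (c • x))
    (hcl : IsClosed {z | p z}) {x : A} (hx : x ∈ EE s) : p x := by
  have h1 : (Submodule.span ℝ (gens s) : Set A) ⊆ {z | p z} := by
    intro z hz
    refine Submodule.span_induction (p := fun z _ => p z) ?_ h0 (fun x y _ _ => hadd x y)
      (fun c x _ => hsmul c x) hz
    rintro _ ⟨l, i, h, hi, h0, rfl⟩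
    exact hgen l i h hi h0
  have h2 : (EE s : Set A) ⊆ {z | p z} := by
    rw [EE, Submodule.topologicalClosure_coe]
    exact closure_minimal h1 hcl
  exact h2 hx

/-- the elements of the space vanish off the finite levels -/
lemma EE_off {x : A} (hx : x ∈ EE s) (t : I) (k g : ℕ) (hg : ¬ g < 2 ^ (k + 2)) :
    x (t, (k, g)) = 0 := by
  refine EE_induction s (p := fun x => x (t, (k, g)) = 0) ?_ ?_ ?_ ?_ ?_ hx
  · intro l i h _ _
    rw [Tz_apply, s.E_apply ℝ]
    have : ee s.sg s.tt l i (k, g) = 0 := by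
      unfold ee
      rw [if_neg hg]
    rw [this]; simp
  · rfl
  · intro x y hx hy
    rw [A.add_apply, hx, hy, add_zero]
  · intro c x hx
    rw [A.smul_apply, hx, mul_zero]
  · exact isClosed_eq (A.continuous_apply _) continuous_const

/-- the space, with a name of its own -/
def W : Type := EE s

instance : NormedAddCommGroup (W s) := inferInstanceAs (NormedAddCommGroup (EE s))

instance : NormedSpace ℝ (W s) := inferInstanceAs (NormedSpace ℝ (EE s))

instance : CompleteSpace (W s) := inferInstanceAs (CompleteSpace (EE s))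

/-- the inclusion of the space in the ambient space -/
def inc : W s →L[ℝ] A := (EE s).subtypeL

lemma inc_mem (x : W s) : inc s x ∈ EE s := Subtype.property (p := fun x => x ∈ EE s) x

lemma norm_inc (x : W s) : ‖inc s x‖ = ‖x‖ := rfl

lemma inc_inj {x y : W s} (h : inc s x = inc s y) : x = y := Subtype.ext h

/-- elements of the space -/
def mkW (x : A) (hx : x ∈ EE s) : W s := (⟨x, hx⟩ : EE s)

lemma inc_mkW (x : A) (hx : x ∈ EE s) : inc s (mkW s x hx) = x := rfl

/-- operators into the space -/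
def lift {M : Type*} [NormedAddCommGroup M] [NormedSpace ℝ M] (T : M →L[ℝ] A)
    (h : ∀ x, T x ∈ EE s) : M →L[ℝ] W s := T.codRestrict (EE s) h

lemma inc_lift {M : Type*} [NormedAddCommGroup M] [NormedSpace ℝ M] (T : M →L[ℝ] A)
    (h : ∀ x, T x ∈ EE s) (x : M) : inc s (lift s T h x) = T x := rfl

lemma lift_compact {M : Type*} [NormedAddCommGroup M] [NormedSpace ℝ M] (T : M →L[ℝ] A)
    (h : ∀ x, T x ∈ EE s) (hT : IsCompactOperator T) : IsCompactOperator (lift s T h) :=
  hT.codRestrict h (isClosed_EE s)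

/-! ### hat functions -/

/-- the hat function -/
def hat (y : ℝ) : ℝ := max 0 (1 - |y|)

lemma hat_nonneg (y : ℝ) : 0 ≤ hat y := le_max_left _ _

lemma hat_eq_zero {y : ℝ} (h : 1 ≤ |y|) : hat y = 0 := max_eq_left (by linarith)

lemma continuous_hat : Continuous hat := by
  unfold hat
  fun_prop

lemma hat_eq (y : ℝ) : hat y = max 0 (y + 1) - 2 * max 0 y + max 0 (y - 1) := by
  unfold hat
  rcases le_total 0 y with h | h
  · rw [abs_of_nonneg h, max_eq_right h, max_eq_right (by linarith : (0 : ℝ) ≤ y + 1)]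
    rcases le_total y 1 with h1 | h1
    · rw [max_eq_right (by linarith), max_eq_left (by linarith)]; ring
    · rw [max_eq_left (by linarith), max_eq_right (by linarith)]; ring
  · rw [abs_of_nonpos h, max_eq_left h, max_eq_left (by linarith : y - 1 ≤ 0)]
    rcases le_total (-1) y with h1 | h1
    · rw [max_eq_right (by linarith), max_eq_right (by linarith)]; ring
    · rw [max_eq_left (by linarith), max_eq_left (by linarith)]; ring

lemma sum_hat (x : ℝ) (n : ℕ) : ∑ j ∈ range n, hat (x - (j + 2)) =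
    max 0 (x - 1) - max 0 (x - 2) - max 0 (x - 1 - n) + max 0 (x - 2 - n) := by
  induction n with
  | zero => simp
  | succ n ih =>
    rw [Finset.sum_range_succ, ih, hat_eq]
    push_cast
    have e1 : x - ((n : ℝ) + 2) + 1 = x - 1 - n := by ring
    have e2 : x - ((n : ℝ) + 2) = x - 2 - n := by ring
    have e3 : x - 1 - ((n : ℝ) + 1) = x - 2 - n := by ring
    have e4 : x - 2 - (n : ℝ) - 1 = x - 2 - ((n : ℝ) + 1) := by ring
    rw [e1, e2, e3, e4]
    ring

lemma sum_hat_le (x : ℝ) (n : ℕ) (hx : x ≤ n + 1) : ∑ j ∈ range n, hat (x - (j + 2)) ≤ 1 := by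
  rw [sum_hat, max_eq_left (by linarith : x - 1 - (n : ℝ) ≤ 0),
    max_eq_left (by linarith : x - 2 - (n : ℝ) ≤ 0)]
  rcases le_total x 1 with h | h
  · rw [max_eq_left (by linarith)]
    have := le_max_left 0 (x - 2)
    linarith
  · rw [max_eq_right (by linarith)]
    have := le_max_right 0 (x - 2)
    linarith

lemma sum_hat_eq (x : ℝ) (n : ℕ) (hx2 : 2 ≤ x) (hx : x ≤ n + 1) :
    ∑ j ∈ range n, hat (x - (j + 2)) = 1 := by
  rw [sum_hat, max_eq_left (by linarith : x - 1 - (n : ℝ) ≤ 0),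
    max_eq_left (by linarith : x - 2 - (n : ℝ) ≤ 0), max_eq_right (by linarith),
    max_eq_right (by linarith)]
  ring

/-- nodes -/
def node (n j : ℕ) : I := Set.projIcc 0 1 zero_le_one ((j : ℝ) / n)

lemma node_val {n j : ℕ} (hj : j < n) : ((node n j : I) : ℝ) = (j : ℝ) / n := by
  have hn : (0 : ℝ) < n := by exact_mod_cast (Nat.zero_le j).trans_lt hj
  have h1 : (j : ℝ) / n ∈ Set.Icc (0 : ℝ) 1 := by
    refine ⟨by positivity, ?_⟩
    rw [div_le_one hn]
    exact_mod_cast hj.le
  unfold node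
  rw [Set.projIcc_of_mem _ h1]

lemma cont_Q (n : ℕ) (F : A) :
    Continuous (fun x : D => ∑ j ∈ range n, hat (n * x.1 - (j + 2)) *
      (wt x.2.1 (x.1 - (j : ℝ) / n) * F (node n j, x.2))) := by
  rw [continuous_prod_of_discrete_right]
  intro p
  refine continuous_finsetSum _ fun j _ => ?_
  have h1 : Continuous fun t : I => hat (n * (t : ℝ) - (j + 2)) :=
    continuous_hat.comp (by fun_prop)
  have h2 : Continuous fun t : I => wt p.1 ((t : ℝ) - (j : ℝ) / n) :=
    (continuous_wt p.1).comp (by fun_prop)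
  have h3 : Continuous fun _ : I => F (node n j, p) := continuous_const
  exact h1.mul (h2.mul h3)

lemma bound_Q (n : ℕ) (F : A) (x : D) : ‖∑ j ∈ range n, hat (n * x.1 - (j + 2)) *
      (wt x.2.1 (x.1 - (j : ℝ) / n) * F (node n j, x.2))‖ ≤ ‖F‖ := by
  obtain ⟨t, p⟩ := x
  dsimp only
  refine (norm_sum_le _ _).trans ?_
  have h1 : ∀ j ∈ range n, ‖hat (n * (t : ℝ) - (j + 2)) *
      (wt p.1 (t - (j : ℝ) / n) * F (node n j, p))‖ ≤ hat (n * (t : ℝ) - (j + 2)) * ‖F‖ := by
    intro j hj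
    have hn : (0 : ℝ) < n := by exact_mod_cast (Nat.zero_le j).trans_lt (mem_range.1 hj)
    rw [norm_mul, norm_mul, Real.norm_of_nonneg (hat_nonneg _),
      Real.norm_of_nonneg (wt_pos _ _).le]
    by_cases h2 : 1 ≤ |n * (t : ℝ) - (j + 2)|
    · rw [hat_eq_zero h2, zero_mul, zero_mul]
    · rw [not_le, abs_lt] at h2
      refine mul_le_mul_of_nonneg_left ?_ (hat_nonneg _)
      have h3 : 0 ≤ (t : ℝ) - (j : ℝ) / n := by
        rw [sub_nonneg, div_le_iff₀ hn]
        linarith [h2.1, mul_comm (t : ℝ) n]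
      calc wt p.1 ((t : ℝ) - (j : ℝ) / n) * ‖F (node n j, p)‖ ≤ 1 * ‖F‖ :=
            mul_le_mul (wt_le_one _ h3) (F.norm_coe_le _) (norm_nonneg _) zero_le_one
        _ = ‖F‖ := one_mul _
  refine (Finset.sum_le_sum h1).trans ?_
  rw [← Finset.sum_mul]
  have h2 := sum_hat_le (n * (t : ℝ)) n (by
    have := t.2.2
    have hn : (0 : ℝ) ≤ n := Nat.cast_nonneg _
    nlinarith)
  calc (∑ j ∈ range n, hat (n * (t : ℝ) - (j + 2))) * ‖F‖ ≤ 1 * ‖F‖ :=
        mul_le_mul_of_nonneg_right h2 (norm_nonneg _)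
    _ = ‖F‖ := one_mul _

/-- the approximating operators, as functions -/
def QFun (n : ℕ) (F : A) : A :=
  A.mk (fun x : D => ∑ j ∈ range n, hat (n * x.1 - (j + 2)) *
      (wt x.2.1 (x.1 - (j : ℝ) / n) * F (node n j, x.2))) (cont_Q n F) ‖F‖ (bound_Q n F)

lemma QFun_apply (n : ℕ) (F : A) (x : D) : QFun n F x = ∑ j ∈ range n, hat (n * x.1 - (j + 2)) *
      (wt x.2.1 (x.1 - (j : ℝ) / n) * F (node n j, x.2)) := rfl

lemma norm_QFun_le (n : ℕ) (F : A) : ‖QFun n F‖ ≤ 1 * ‖F‖ := by
  rw [one_mul]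
  exact (A.norm_le (norm_nonneg _)).2 fun x => bound_Q n F x

/-- the approximating operators -/
def Q (n : ℕ) : A →L[ℝ] A :=
  LinearMap.mkContinuous
    { toFun := QFun n
      map_add' := fun x y => by
        ext d
        rw [A.add_apply, QFun_apply, QFun_apply, QFun_apply,
          ← Finset.sum_add_distrib]
        refine Finset.sum_congr rfl fun j _ => ?_
        rw [A.add_apply]
        ring
      map_smul' := fun c x => by
        ext d
        rw [RingHom.id_apply, A.smul_apply, QFun_apply, QFun_apply, Finset.mul_sum]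
        refine Finset.sum_congr rfl fun j _ => ?_
        rw [A.smul_apply]
        ring } 1 (fun z => norm_QFun_le n z)

lemma Q_apply (n : ℕ) (F : A) (x : D) : Q n F x = ∑ j ∈ range n, hat (n * x.1 - (j + 2)) *
      (wt x.2.1 (x.1 - (j : ℝ) / n) * F (node n j, x.2)) := rfl

lemma norm_Q_le (n : ℕ) : ‖Q n‖ ≤ 1 := LinearMap.mkContinuous_norm_le _ zero_le_one _

/-- interpolation of functions on the interval -/
def interp (n : ℕ) (h : C(I, ℝ)) : C(I, ℝ) where
  toFun t := ∑ j ∈ range n, hat (n * t - (j + 2)) * h (node n j)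
  continuous_toFun := by
    refine continuous_finsetSum _ fun j _ => ?_
    refine (continuous_hat.comp ?_).mul continuous_const
    fun_prop

lemma interp_apply (n : ℕ) (h : C(I, ℝ)) (t : I) :
    interp n h t = ∑ j ∈ range n, hat (n * t - (j + 2)) * h (node n j) := rfl

lemma interp_zero (n : ℕ) (h : C(I, ℝ)) : interp n h 0 = 0 := by
  rw [interp_apply]
  refine Finset.sum_eq_zero fun j _ => ?_
  rw [hat_eq_zero, zero_mul]
  have : (0 : ℝ) ≤ j := Nat.cast_nonneg _
  rw [show ((0 : I) : ℝ) = 0 from rfl, mul_zero, zero_sub, abs_neg, abs_of_nonneg (by linarith)]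
  linarith

lemma Q_Tz (n : ℕ) (h : C(I, ℝ)) (z : Z ℝ) : Q n (Tz h z) = Tz (interp n h) z := by
  ext ⟨t, p⟩
  rw [Q_apply, Tz_apply, interp_apply]
  dsimp only
  rw [Finset.sum_mul, Finset.mul_sum]
  refine Finset.sum_congr rfl fun j hj => ?_
  rw [Tz_apply]
  dsimp only
  rw [node_val (mem_range.1 hj)]
  have h1 := wt_add p.1 ((t : ℝ) - (j : ℝ) / n) ((j : ℝ) / n)
  rw [sub_add_cancel] at h1
  rw [← h1]
  ring

lemma Q_mem (n : ℕ) {x : A} (hx : x ∈ EE s) : Q n x ∈ EE s := by
  refine EE_induction s (p := fun x => Q n x ∈ EE s) ?_ ?_ ?_ ?_ ?_ hx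
  · intro l i h hi h0
    rw [Q_Tz]
    exact gen_mem s _ hi (interp_zero n h)
  · rw [map_zero]; exact Submodule.zero_mem _
  · intro x y hx hy
    rw [map_add]; exact Submodule.add_mem _ hx hy
  · intro c x hx
    rw [map_smul]; exact Submodule.smul_mem _ _ hx
  · exact (isClosed_EE s).preimage (Q n).continuous

end Pool.Agent.H88.CAP
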