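import Pool.Agent.H88.CAP.Space

set_option autoImplicit false
set_option linter.unusedSectionVars false

/-! # Trace functionals on the operators into the space -/

open Filter Topology Finset
open scoped BoundedContinuousFunction unitInterval

noncomputable section

namespace Pool.Agent.H88.CAP

open Pool.Agent.H812R2.AP Pool.Agent.BAPp

variable (s : Sys)

/-- the biorthogonal functionals -/
def aw (l j : ℕ) (F : A) : ℝ :=
  (1 / 2 ^ (l + 2) : ℝ) * ∑ g ∈ range (2 ^ (l + 2)), s.sg l j g *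
    (Real.exp ((l : ℝ) / 4) * F (1, (l, g)))

/-- the second form of the biorthogonal functionals -/
def aw' (l j : ℕ) (F : A) : ℝ :=
  (1 / 2 ^ (l + 2) : ℝ) * ∑ g ∈ range (2 ^ (l + 2)), s.tt l j g *
    (Real.exp ((l : ℝ) / 4) * F (1, (l, g)))

lemma exp_wt (l : ℕ) : Real.exp ((l : ℝ) / 4) * wt l 1 = 1 := by
  unfold wt
  rw [← Real.exp_add, mul_one, add_neg_cancel, Real.exp_zero]

lemma exp_Tz (h : C(I, ℝ)) (z : Z ℝ) (l g : ℕ) :
    Real.exp ((l : ℝ) / 4) * Tz h z (1, (l, g)) = h 1 * z (l, g) := by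
  rw [Tz_apply]
  have e : ((1 : I) : ℝ) = 1 := rfl
  dsimp only
  rw [e, ← mul_assoc, exp_wt, one_mul]

lemma aw_Tz (h : C(I, ℝ)) (z : Z ℝ) (l j : ℕ) : aw s l j (Tz h z) = h 1 * s.al l j z := by
  unfold aw Sys.al
  simp only [exp_Tz]
  rw [mul_left_comm, Finset.mul_sum (a := h 1)]
  congr 1
  refine Finset.sum_congr rfl fun g _ => ?_
  rw [mul_left_comm]
  rfl

lemma aw'_Tz (h : C(I, ℝ)) (z : Z ℝ) (l j : ℕ) : aw' s l j (Tz h z) = h 1 * s.al' l j z := by
  unfold aw' Sys.al'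
  simp only [exp_Tz]
  rw [mul_left_comm, Finset.mul_sum (a := h 1)]
  congr 1
  refine Finset.sum_congr rfl fun g _ => ?_
  rw [mul_left_comm]
  rfl

lemma aw_add (l j : ℕ) (F G : A) : aw s l j (F + G) = aw s l j F + aw s l j G := by
  unfold aw
  rw [← mul_add, ← Finset.sum_add_distrib]
  congr 1
  refine Finset.sum_congr rfl fun g _ => ?_
  rw [A.add_apply, mul_add, mul_add]

lemma aw_smul (l j : ℕ) (c : ℝ) (F : A) : aw s l j (c • F) = c * aw s l j F := by
  unfold aw
  rw [mul_left_comm, Finset.mul_sum (a := c)]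
  congr 1
  refine Finset.sum_congr rfl fun g _ => ?_
  rw [A.smul_apply]
  ring

lemma aw'_add (l j : ℕ) (F G : A) : aw' s l j (F + G) = aw' s l j F + aw' s l j G := by
  unfold aw'
  rw [← mul_add, ← Finset.sum_add_distrib]
  congr 1
  refine Finset.sum_congr rfl fun g _ => ?_
  rw [A.add_apply, mul_add, mul_add]

lemma aw'_smul (l j : ℕ) (c : ℝ) (F : A) : aw' s l j (c • F) = c * aw' s l j F := by
  unfold aw'
  rw [mul_left_comm, Finset.mul_sum (a := c)]
  congr 1
  refine Finset.sum_congr rfl fun g _ => ?_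
  rw [A.smul_apply]
  ring

lemma aw_zero (l j : ℕ) : aw s l j 0 = 0 := by
  have := aw_smul s l j 0 0
  rwa [zero_smul, zero_mul] at this

lemma aw'_zero (l j : ℕ) : aw' s l j 0 = 0 := by
  have := aw'_smul s l j 0 0
  rwa [zero_smul, zero_mul] at this

lemma continuous_aw (l j : ℕ) : Continuous (aw s l j) := by
  unfold aw
  exact continuous_const.mul (continuous_finsetSum _ fun g _ =>
    continuous_const.mul (continuous_const.mul (A.continuous_apply _)))

lemma continuous_aw' (l j : ℕ) : Continuous (aw' s l j) := by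
  unfold aw'
  exact continuous_const.mul (continuous_finsetSum _ fun g _ =>
    continuous_const.mul (continuous_const.mul (A.continuous_apply _)))

lemma aw_eq (l j : ℕ) (hj : j < 2 ^ (l + 1)) {x : A} (hx : x ∈ EE s) :
    aw s (l + 1) j x = aw' s l j x := by
  refine EE_induction s (p := fun x => aw s (l + 1) j x = aw' s l j x) ?_ ?_ ?_ ?_ ?_ hx
  · intro m i h hi _
    rw [aw_Tz, aw'_Tz, s.al_E _ _ _ _ hj hi, s.al'_E _ _ _ _ hj hi]
  · rw [aw_zero, aw'_zero]
  · intro x y hx hy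
    rw [aw_add, aw'_add, hx, hy]
  · intro c x hx
    rw [aw_smul, aw'_smul, hx]
  · exact isClosed_eq (continuous_aw s _ _) (continuous_aw' s _ _)

lemma norm_aw_le (l j : ℕ) (F : A) : |aw s l j F| ≤ Real.exp ((l : ℝ) / 4) * ‖F‖ := by
  unfold aw
  have hM : 0 ≤ Real.exp ((l : ℝ) / 4) * ‖F‖ := by positivity
  rw [abs_mul]
  have h1 : |(1 / 2 ^ (l + 2) : ℝ)| = 1 / 2 ^ (l + 2) := abs_of_pos (by positivity)
  rw [h1]
  have h2 : |∑ g ∈ range (2 ^ (l + 2)), s.sg l j g * (Real.exp ((l : ℝ) / 4) * F (1, (l, g)))| ≤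
      2 ^ (l + 2) * (Real.exp ((l : ℝ) / 4) * ‖F‖) := by
    refine (Finset.abs_sum_le_sum_abs _ _).trans ?_
    have h3 : ∑ g ∈ range (2 ^ (l + 2)), |s.sg l j g * (Real.exp ((l : ℝ) / 4) * F (1, (l, g)))| ≤
        ∑ g ∈ range (2 ^ (l + 2)), Real.exp ((l : ℝ) / 4) * ‖F‖ := by
      refine Finset.sum_le_sum fun g _ => ?_
      rw [abs_mul, abs_mul, abs_of_pos (Real.exp_pos _)]
      have h4 := s.sg_le l j g
      have h5 := A.norm_coe_le F (1, (l, g))
      rw [Real.norm_eq_abs] at h5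
      have h6 : Real.exp ((l : ℝ) / 4) * |F (1, (l, g))| ≤ Real.exp ((l : ℝ) / 4) * ‖F‖ :=
        mul_le_mul_of_nonneg_left h5 (Real.exp_pos _).le
      calc |s.sg l j g| * (Real.exp ((l : ℝ) / 4) * |F (1, (l, g))|) ≤
          1 * (Real.exp ((l : ℝ) / 4) * ‖F‖) := mul_le_mul h4 h6 (by positivity) zero_le_one
        _ = _ := one_mul _
    refine h3.trans (le_of_eq ?_)
    rw [Finset.sum_const, card_range, nsmul_eq_mul]
    push_cast
    ring
  calc (1 / 2 ^ (l + 2) : ℝ) * _ ≤ (1 / 2 ^ (l + 2)) *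
        (2 ^ (l + 2) * (Real.exp ((l : ℝ) / 4) * ‖F‖)) :=
        mul_le_mul_of_nonneg_left h2 (by positivity)
    _ = _ := by field_simp

/-- the trace functionals -/
def bt (k : ℕ) (S : s.XT ℝ →L[ℝ] W s) : ℝ :=
  (1 / 2 ^ k : ℝ) * ∑ j ∈ range (2 ^ k), aw s k j (inc s (S (s.EX ℝ k j)))

lemma bt_succ (k : ℕ) (T : s.XT ℝ →L[ℝ] W s) : bt s (k + 1) T - bt s k T =
    (1 / 2 ^ (k + 2) : ℝ) * ∑ g ∈ range (2 ^ (k + 2)),
      Real.exp ((k : ℝ) / 4) * (inc s (T (s.Phi ℝ k g))) (1, (k, g)) := by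
  have h1 : ∀ g, Real.exp ((k : ℝ) / 4) * (inc s (T (s.Phi ℝ k g))) (1, (k, g)) =
      (1 / 2 ^ (k + 1) : ℝ) * (∑ j ∈ range (2 ^ (k + 1)),
        s.tt k j g * (Real.exp ((k : ℝ) / 4) * (inc s (T (s.EX ℝ (k + 1) j))) (1, (k, g)))) -
      (1 / 2 ^ k : ℝ) * (∑ j ∈ range (2 ^ k),
        s.sg k j g * (Real.exp ((k : ℝ) / 4) * (inc s (T (s.EX ℝ k j))) (1, (k, g)))) := by
    intro g
    unfold Sys.Phi
    simp only [map_sub, map_smul, map_sum, A.sub_apply, A.smul_apply, A.sum_apply]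
    rw [mul_sub]
    congr 1
    · rw [mul_left_comm, Finset.mul_sum (a := Real.exp ((k : ℝ) / 4))]
      congr 1
      refine Finset.sum_congr rfl fun j _ => ?_
      rw [mul_left_comm]
      rfl
    · rw [mul_left_comm, Finset.mul_sum (a := Real.exp ((k : ℝ) / 4))]
      congr 1
      refine Finset.sum_congr rfl fun j _ => ?_
      rw [mul_left_comm]
      rfl
  have h2 : bt s (k + 1) T = (1 / 2 ^ (k + 1) : ℝ) * ∑ j ∈ range (2 ^ (k + 1)),
      aw' s k j (inc s (T (s.EX ℝ (k + 1) j))) := by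
    unfold bt
    congr 1
    refine Finset.sum_congr rfl fun j hj => ?_
    exact aw_eq s k j (mem_range.1 hj) (inc_mem s _)
  rw [h2]
  unfold bt aw aw'
  simp only [h1]
  rw [Finset.sum_sub_distrib, mul_sub]
  congr 1
  · rw [← Finset.mul_sum, ← Finset.mul_sum, mul_left_comm]
    congr 2
    rw [Finset.sum_comm]
  · rw [← Finset.mul_sum, ← Finset.mul_sum, mul_left_comm]
    congr 2
    rw [Finset.sum_comm]

/-- the increments -/
def uu (k : ℕ) : ℝ := Real.exp ((k : ℝ) / 4) * Sys.cc k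

lemma uu_nonneg (k : ℕ) : 0 ≤ uu k := by
  unfold uu Sys.cc
  positivity

lemma norm_bt_succ (k : ℕ) (T : s.XT ℝ →L[ℝ] W s) :
    |bt s (k + 1) T - bt s k T| ≤ uu k * ‖T‖ := by
  rw [bt_succ, abs_mul, abs_of_pos (by positivity : (0 : ℝ) < 1 / 2 ^ (k + 2))]
  have h2 : |∑ g ∈ range (2 ^ (k + 2)), Real.exp ((k : ℝ) / 4) *
      (inc s (T (s.Phi ℝ k g))) (1, (k, g))| ≤ 2 ^ (k + 2) * (uu k * ‖T‖) := by
    refine (Finset.abs_sum_le_sum_abs _ _).trans ?_
    have h3 : ∑ g ∈ range (2 ^ (k + 2)), |Real.exp ((k : ℝ) / 4) *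
        (inc s (T (s.Phi ℝ k g))) (1, (k, g))| ≤ ∑ g ∈ range (2 ^ (k + 2)), uu k * ‖T‖ := by
      refine Finset.sum_le_sum fun g hg => ?_
      rw [abs_mul, abs_of_pos (Real.exp_pos _)]
      have h4 := A.norm_coe_le (inc s (T (s.Phi ℝ k g))) (1, (k, g))
      rw [Real.norm_eq_abs, norm_inc] at h4
      have h5 := T.le_opNorm (s.Phi ℝ k g)
      have h6 := s.norm_Phi_le ℝ k g (mem_range.1 hg)
      have h7 : ‖T‖ * ‖s.Phi ℝ k g‖ ≤ ‖T‖ * Sys.cc k :=
        mul_le_mul_of_nonneg_left h6 (norm_nonneg _)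
      calc _ ≤ Real.exp ((k : ℝ) / 4) * (‖T‖ * Sys.cc k) :=
            mul_le_mul_of_nonneg_left (h4.trans (h5.trans h7)) (Real.exp_pos _).le
        _ = _ := by unfold uu; ring
    refine h3.trans (le_of_eq ?_)
    rw [Finset.sum_const, card_range, nsmul_eq_mul]
    push_cast
    ring
  calc (1 / 2 ^ (k + 2) : ℝ) * _ ≤ (1 / 2 ^ (k + 2)) * (2 ^ (k + 2) * (uu k * ‖T‖)) :=
        mul_le_mul_of_nonneg_left h2 (by positivity)
    _ = _ := by field_simp

lemma exp_quarter : Real.exp (1 / 4) < 4 / 3 := by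
  have h1 : Real.exp (1 / 4) ^ 4 = Real.exp 1 := by
    rw [← Real.exp_nat_mul]
    norm_num
  have h2 := Real.exp_one_lt_d9
  have h3 : Real.exp (1 / 4) ^ 4 < (4 / 3 : ℝ) ^ 4 := by
    rw [h1]
    refine h2.trans ?_
    norm_num
  exact lt_of_pow_lt_pow_left₀ 4 (by norm_num) h3

lemma summable_uu : Summable uu := by
  have h1 := Sys.tendsto_cc
  obtain ⟨C, hC⟩ := h1.bddAbove_range
  have hC' : ∀ k : ℕ, (4 / 3 : ℝ) ^ k * Sys.cc k ≤ C := fun k => hC ⟨k, rfl⟩
  have hC0 : 0 ≤ C := by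
    refine le_trans ?_ (hC' 0)
    unfold Sys.cc
    positivity
  set r : ℝ := 3 / 4 * Real.exp (1 / 4) with hr
  have hr0 : 0 ≤ r := by positivity
  have hr1 : r < 1 := by
    have := exp_quarter
    linarith
  refine Summable.of_nonneg_of_le uu_nonneg (fun k => ?_)
    ((summable_geometric_of_lt_one hr0 hr1).mul_left C)
  have e : uu k = r ^ k * ((4 / 3 : ℝ) ^ k * Sys.cc k) := by
    unfold uu
    have e1 : Real.exp ((k : ℝ) / 4) = Real.exp (1 / 4) ^ k := by
      rw [← Real.exp_nat_mul]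
      congr 1
      ring
    rw [e1, hr, mul_pow]
    have e2 : ((3 / 4 : ℝ)) ^ k * (4 / 3 : ℝ) ^ k = 1 := by
      rw [← mul_pow]; norm_num
    calc _ = ((3 / 4 : ℝ) ^ k * (4 / 3 : ℝ) ^ k) * (Real.exp (1 / 4) ^ k * Sys.cc k) := by
          rw [e2, one_mul]
      _ = _ := by ring
  rw [e, mul_comm C]
  exact mul_le_mul_of_nonneg_left (hC' k) (pow_nonneg hr0 _)

/-- tails of the sum of the increments -/
def tail (K : ℕ) : ℝ := ∑' i, uu (i + K)

lemma tendsto_tail : Tendsto tail atTop (𝓝 0) := tendsto_sum_nat_add uu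

lemma bt_diff (T : s.XT ℝ →L[ℝ] W s) (K n : ℕ) : |bt s (n + K) T - bt s K T| ≤ tail K * ‖T‖ := by
  have h1 : ∀ n, |bt s (n + K) T - bt s K T| ≤ (∑ i ∈ range n, uu (i + K)) * ‖T‖ := by
    intro n
    induction n with
    | zero => simp
    | succ n ih =>
      rw [Finset.sum_range_succ, add_mul]
      have h2 := norm_bt_succ s (n + K) T
      have e : n + 1 + K = n + K + 1 := by ring
      rw [e]
      have h3 := abs_add_le (bt s (n + K + 1) T - bt s (n + K) T) (bt s (n + K) T - bt s K T)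
      have e2 : bt s (n + K + 1) T - bt s (n + K) T + (bt s (n + K) T - bt s K T) =
        bt s (n + K + 1) T - bt s K T := by ring
      rw [e2] at h3
      linarith
  refine (h1 n).trans (mul_le_mul_of_nonneg_right ?_ (norm_nonneg _))
  exact Summable.sum_le_tsum _ (fun i _ => uu_nonneg _)
    ((summable_nat_add_iff K).2 summable_uu)

lemma tail_nonneg (K : ℕ) : 0 ≤ tail K := tsum_nonneg fun _ => uu_nonneg _

lemma norm_EX_le (k j : ℕ) : ‖s.EX ℝ k j‖ ≤ 1 := by
  by_cases h : j < 2 ^ k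
  · rw [← s.norm_val ℝ, s.EX_coe ℝ h]
    exact s.norm_E_le ℝ _ _
  · have : s.EX ℝ k j = 0 := dif_neg h
    rw [this, norm_zero]
    exact zero_le_one

lemma bt_bound (T : s.XT ℝ →L[ℝ] W s) (K : ℕ) : |bt s K T| ≤ Real.exp ((K : ℝ) / 4) * ‖T‖ := by
  unfold bt
  rw [abs_mul, abs_of_pos (by positivity : (0 : ℝ) < 1 / 2 ^ K)]
  have h2 : |∑ j ∈ range (2 ^ K), aw s K j (inc s (T (s.EX ℝ K j)))| ≤
      2 ^ K * (Real.exp ((K : ℝ) / 4) * ‖T‖) := by
    refine (Finset.abs_sum_le_sum_abs _ _).trans ?_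
    have h3 : ∑ j ∈ range (2 ^ K), |aw s K j (inc s (T (s.EX ℝ K j)))| ≤
        ∑ j ∈ range (2 ^ K), Real.exp ((K : ℝ) / 4) * ‖T‖ := by
      refine Finset.sum_le_sum fun j _ => ?_
      refine (norm_aw_le s K j _).trans (mul_le_mul_of_nonneg_left ?_ (Real.exp_pos _).le)
      rw [norm_inc]
      refine (T.le_opNorm _).trans ?_
      calc ‖T‖ * ‖s.EX ℝ K j‖ ≤ ‖T‖ * 1 :=
            mul_le_mul_of_nonneg_left (norm_EX_le s K j) (norm_nonneg _)
        _ = ‖T‖ := mul_one _
    refine h3.trans (le_of_eq ?_)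
    rw [Finset.sum_const, card_range, nsmul_eq_mul]
    push_cast
    ring
  calc (1 / 2 ^ K : ℝ) * _ ≤ (1 / 2 ^ K) * (2 ^ K * (Real.exp ((K : ℝ) / 4) * ‖T‖)) :=
        mul_le_mul_of_nonneg_left h2 (by positivity)
    _ = _ := by field_simp

lemma bt_add (k : ℕ) (T S : s.XT ℝ →L[ℝ] W s) : bt s k (T + S) = bt s k T + bt s k S := by
  unfold bt
  rw [← mul_add, ← Finset.sum_add_distrib]
  congr 1
  refine Finset.sum_congr rfl fun j _ => ?_
  rw [_root_.add_apply, map_add, aw_add]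

lemma bt_smul (k : ℕ) (c : ℝ) (T : s.XT ℝ →L[ℝ] W s) : bt s k (c • T) = c * bt s k T := by
  unfold bt
  rw [mul_left_comm, Finset.mul_sum (a := c)]
  congr 1
  refine Finset.sum_congr rfl fun j _ => ?_
  rw [_root_.smul_apply, map_smul, aw_smul]

lemma bt_zero (k : ℕ) : bt s k 0 = 0 := by
  have := bt_smul s k 0 0
  rwa [zero_smul, zero_mul] at this

lemma bt_sub (k : ℕ) (T S : s.XT ℝ →L[ℝ] W s) : bt s k (T - S) = bt s k T - bt s k S := by
  have h : T - S = T + (-1 : ℝ) • S := by rw [neg_one_smul, sub_eq_add_neg]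
  rw [h, bt_add, bt_smul]
  ring

/-- the uniform bound -/
lemma bt_le (T : s.XT ℝ →L[ℝ] W s) (n : ℕ) : |bt s n T| ≤ (1 + tail 0) * ‖T‖ := by
  have h1 := bt_diff s T 0 n
  have h2 := bt_bound s T 0
  rw [add_zero] at h1
  rw [Nat.cast_zero, zero_div, Real.exp_zero, one_mul] at h2
  have h3 := abs_add_le (bt s n T - bt s 0 T) (bt s 0 T)
  rw [sub_add_cancel] at h3
  linarith

/-- rank one operators -/
lemma tendsto_rankOne (φ : s.XT ℝ →L[ℝ] ℝ) (e : W s) :
    Tendsto (fun n => bt s n (φ.smulRight e)) atTop (𝓝 0) := by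
  have key : ∀ x ∈ EE s, ∀ e : W s, inc s e = x →
      Tendsto (fun n => bt s n (φ.smulRight e)) atTop (𝓝 0) := by
    intro x hx
    have h := EE_induction s (p := fun x => x ∈ EE s ∧ ∀ e : W s, inc s e = x →
      Tendsto (fun n => bt s n (φ.smulRight e)) atTop (𝓝 0)) ?_ ?_ ?_ ?_ ?_ hx
    · exact h.2
    · intro l i h hi h0
      refine ⟨gen_mem s h hi h0, fun e he => ?_⟩
      refine tendsto_const_nhds.congr' ?_
      filter_upwards [eventually_gt_atTop l] with n hn
      unfold bt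
      rw [Finset.sum_eq_zero, mul_zero]
      intro j hj
      have e1 : inc s ((φ.smulRight e) (s.EX ℝ n j)) = φ (s.EX ℝ n j) • Tz h (s.E ℝ l i) := by
        rw [ContinuousLinearMap.smulRight_apply, map_smul, he]
      rw [e1, aw_smul, aw_Tz, s.al_E _ _ _ _ (mem_range.1 hj) hi, if_neg (fun h => by omega),
        mul_zero, mul_zero]
    · refine ⟨Submodule.zero_mem _, fun e he => ?_⟩
      have e0 : e = 0 := inc_inj s (by rw [he, map_zero])
      have e1 : φ.smulRight e = 0 := by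
        rw [e0]; ext x; simp
      simp only [e1, bt_zero]
      exact tendsto_const_nhds
    · rintro x y ⟨hx, hx2⟩ ⟨hy, hy2⟩
      refine ⟨Submodule.add_mem _ hx hy, fun e he => ?_⟩
      have e1 : φ.smulRight e = φ.smulRight (mkW s x hx) + φ.smulRight (mkW s y hy) := by
        have e0 : e = mkW s x hx + mkW s y hy := inc_inj s (by
          rw [he, map_add, inc_mkW, inc_mkW])
        rw [e0]; ext z; simp
      simp only [e1, bt_add]
      have := (hx2 _ (inc_mkW s x hx)).add (hy2 _ (inc_mkW s y hy))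
      rwa [add_zero] at this
    · rintro c x ⟨hx, hx2⟩
      refine ⟨Submodule.smul_mem _ _ hx, fun e he => ?_⟩
      have e1 : φ.smulRight e = c • φ.smulRight (mkW s x hx) := by
        have e0 : e = c • mkW s x hx := inc_inj s (by
          rw [he, map_smul, inc_mkW])
        rw [e0]; ext z
        simp only [ContinuousLinearMap.smulRight_apply, _root_.smul_apply]
        rw [smul_comm]
      simp only [e1, bt_smul]
      have := (hx2 _ (inc_mkW s x hx)).const_mul c
      rwa [mul_zero] at this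
    · rw [← closure_eq_iff_isClosed]
      refine Set.Subset.antisymm (fun x hx => ?_) subset_closure
      have hxE : x ∈ EE s := by
        have h1 : {z | z ∈ EE s ∧ ∀ e : W s, inc s e = z →
          Tendsto (fun n => bt s n (φ.smulRight e)) atTop (𝓝 0)} ⊆ (EE s : Set A) :=
          fun z hz => hz.1
        exact (closure_minimal h1 (isClosed_EE s)) hx
      refine ⟨hxE, fun e he => ?_⟩
      rw [Metric.tendsto_atTop]
      intro ε hε
      have hC : 0 ≤ 1 + tail 0 := by have := tail_nonneg 0; linarith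
      set C := (1 + tail 0) * ‖φ‖ + 1 with hCdef
      have hC1 : 0 < C := by positivity
      rw [Metric.mem_closure_iff] at hx
      obtain ⟨y, ⟨hyE, hy⟩, hxy⟩ := hx (ε / (2 * C)) (by positivity)
      obtain ⟨N, hN⟩ := Metric.tendsto_atTop.1 (hy _ (inc_mkW s y hyE)) (ε / 2) (by positivity)
      refine ⟨N, fun n hn => ?_⟩
      have h1 := hN n hn
      rw [dist_zero_right, Real.norm_eq_abs] at h1 ⊢
      have e1 : bt s n (φ.smulRight e) = bt s n (φ.smulRight (e - mkW s y hyE)) +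
          bt s n (φ.smulRight (mkW s y hyE)) := by
        rw [← bt_add]
        congr 1
        ext z
        simp only [ContinuousLinearMap.smulRight_apply, _root_.add_apply]
        rw [← smul_add, sub_add_cancel]
      have h2 := bt_le s (φ.smulRight (e - mkW s y hyE)) n
      have h3 : ‖φ.smulRight (e - mkW s y hyE)‖ = ‖φ‖ * ‖e - mkW s y hyE‖ :=
        ContinuousLinearMap.norm_smulRight_apply _ _
      have h4 : ‖e - mkW s y hyE‖ < ε / (2 * C) := by
        rw [← norm_inc, map_sub, inc_mkW, he, ← dist_eq_norm]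
        exact hxy
      have h5 : |bt s n (φ.smulRight (e - mkW s y hyE))| ≤ ε / 2 := by
        refine h2.trans ?_
        rw [h3]
        calc (1 + tail 0) * (‖φ‖ * ‖e - mkW s y hyE‖) = ((1 + tail 0) * ‖φ‖) *
              ‖e - mkW s y hyE‖ := by ring
          _ ≤ C * (ε / (2 * C)) :=
              mul_le_mul (by linarith) h4.le (norm_nonneg _) hC1.le
          _ = ε / 2 := by field_simp
      rw [e1]
      have h6 := abs_add_le (bt s n (φ.smulRight (e - mkW s y hyE)))
        (bt s n (φ.smulRight (mkW s y hyE)))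
      linarith
  exact key _ (inc_mem s e) e rfl

/-- finite rank operators -/
lemma tendsto_finiteRank (S : s.XT ℝ →L[ℝ] W s)
    (hS : FiniteDimensional ℝ (LinearMap.range (S : s.XT ℝ →ₗ[ℝ] W s))) :
    Tendsto (fun n => bt s n S) atTop (𝓝 0) := by
  set V := LinearMap.range (S : s.XT ℝ →ₗ[ℝ] W s) with hV
  let b := Module.finBasis ℝ V
  let S' : s.XT ℝ →L[ℝ] V := S.codRestrict V fun x => ⟨x, rfl⟩
  let f : Fin (Module.finrank ℝ V) → (V →L[ℝ] ℝ) := fun i =>
    LinearMap.toContinuousLinearMap (b.coord i)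
  have e : S = ∑ i, ((f i).comp S').smulRight (b i : W s) := by
    ext x
    rw [_root_.sum_apply]
    have h1 : S' x = ∑ i, f i (S' x) • b i := (b.sum_repr (S' x)).symm
    have h2 : S x = ((S' x : V) : W s) := rfl
    rw [h2]
    conv_lhs => rw [h1]
    rw [Submodule.coe_sum]
    rfl
  have h3 : ∀ (t : Finset (Fin (Module.finrank ℝ V))),
      Tendsto (fun n => bt s n (∑ i ∈ t, ((f i).comp S').smulRight (b i : W s))) atTop (𝓝 0) := by
    intro t
    induction t using Finset.induction_on with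
    | empty =>
      simp only [Finset.sum_empty, bt_zero]
      exact tendsto_const_nhds
    | insert i t hi ih =>
      simp only [Finset.sum_insert hi, bt_add]
      have := (tendsto_rankOne s ((f i).comp S') (b i : W s)).add ih
      rwa [add_zero] at this
  rw [e]
  exact h3 _

/-- the bound for finite rank operators -/
lemma bt_finiteRank_le (S : s.XT ℝ →L[ℝ] W s)
    (hS : FiniteDimensional ℝ (LinearMap.range (S : s.XT ℝ →ₗ[ℝ] W s))) (K : ℕ) :
    |bt s K S| ≤ tail K * ‖S‖ := by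
  have h1 := tendsto_finiteRank s S hS
  have h2 : Tendsto (fun n => |bt s (n + K) S - bt s K S|) atTop (𝓝 |0 - bt s K S|) := by
    exact (((tendsto_add_atTop_iff_nat K).2 h1).sub_const _).abs
  rw [zero_sub, abs_neg] at h2
  exact le_of_tendsto h2 (Eventually.of_forall fun n => bt_diff s S K n)

/-- the identity function of the interval -/
def idI : C(I, ℝ) where
  toFun t := t
  continuous_toFun := continuous_subtype_val

lemma idI_apply (t : I) : idI t = t := rfl

lemma idI_mem {z : Z ℝ} (hz : z ∈ s.X ℝ) : Tz idI z ∈ EE s := by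
  refine s.X_induction (p := fun z => Tz idI z ∈ EE s) ?_ ?_ ?_ ?_ ?_ hz
  · intro l i hi
    exact gen_mem s idI hi rfl
  · rw [map_zero]; exact Submodule.zero_mem _
  · intro x y hx hy
    rw [map_add]; exact Submodule.add_mem _ hx hy
  · intro c x hx
    rw [map_smul]; exact Submodule.smul_mem _ _ hx
  · exact (isClosed_EE s).preimage (Tz idI).continuous

/-- the inclusion of Davie's space as a continuous map -/
def valL : s.XT ℝ →L[ℝ] Z ℝ :=
  LinearMap.mkContinuous (s.val ℝ) 1 fun x => by rw [s.norm_val ℝ, one_mul]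

lemma valL_apply (x : s.XT ℝ) : valL s x = s.val ℝ x := rfl

/-- the operator -/
def T0 : s.XT ℝ →L[ℝ] W s := lift s ((Tz idI).comp (valL s)) fun x => idI_mem s (s.val_mem ℝ x)

lemma inc_T0 (x : s.XT ℝ) : inc s (T0 s x) = Tz idI (s.val ℝ x) := rfl

lemma bt_T0 (k : ℕ) : bt s k (T0 s) = 1 := by
  unfold bt
  have h : ∀ j ∈ range (2 ^ k), aw s k j (inc s (T0 s (s.EX ℝ k j))) = 1 := by
    intro j hj
    rw [inc_T0, s.EX_coe ℝ (mem_range.1 hj), aw_Tz,
      s.al_E _ _ _ _ (mem_range.1 hj) (mem_range.1 hj), if_pos ⟨rfl, rfl⟩, mul_one]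
    rfl
  rw [Finset.sum_congr rfl h, Finset.sum_const, card_range, nsmul_eq_mul, mul_one, one_div]
  push_cast
  rw [inv_mul_cancel₀]
  exact pow_ne_zero _ two_ne_zero

/-- the operator is not a pointwise limit of finite rank operators -/
theorem no_approx (S : ℕ → (s.XT ℝ →L[ℝ] W s))
    (hfr : ∀ j, FiniteDimensional ℝ (LinearMap.range (S j : s.XT ℝ →ₗ[ℝ] W s)))
    (hlim : ∀ x, Tendsto (fun j => S j x) atTop (𝓝 (T0 s x))) : False := by
  obtain ⟨M, hM⟩ := banach_steinhaus (g := S) (fun x => by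
    obtain ⟨C, hC⟩ := (hlim x).norm.bddAbove_range
    exact ⟨C, fun j => hC ⟨j, rfl⟩⟩)
  have h1 : ∀ K, 1 ≤ tail K * M := by
    intro K
    have h2 : Tendsto (fun j => bt s K (S j)) atTop (𝓝 (bt s K (T0 s))) := by
      unfold bt
      refine Tendsto.const_mul _ (tendsto_finsetSum _ fun i _ => ?_)
      exact ((continuous_aw s K i).tendsto _).comp (((inc s).continuous.tendsto _).comp (hlim _))
    rw [bt_T0] at h2
    refine le_of_tendsto h2 (Eventually.of_forall fun j => ?_)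
    refine (le_abs_self _).trans ((bt_finiteRank_le s (S j) (hfr j) K).trans ?_)
    exact mul_le_mul_of_nonneg_left (hM j) (tail_nonneg K)
  have h3 := tendsto_tail.mul_const M
  rw [zero_mul] at h3
  have h4 := ge_of_tendsto h3 (Eventually.of_forall h1)
  linarith

end Pool.Agent.H88.CAP
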